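import Mathlib

/-! Localisation at a maximal ideal `m` without localising: the ideal `cl m L` of all `f` with
`s f ∈ L` for some `s ∉ m`; the socle of `S/L`; exchange of regular elements. -/

namespace Pool.Agent.H90.CMR

variable {k S : Type*} [Field k] [CommRing S] [Algebra k S]

/-- The kernel of `S → (S/L)_m`. -/
def cl (m : Ideal S) [hm : m.IsPrime] (L : Ideal S) : Ideal S where
  carrier := {f | ∃ s, s ∉ m ∧ s * f ∈ L}
  add_mem' := by
    rintro a b ⟨s, hs, hsa⟩ ⟨t, ht, htb⟩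
    refine ⟨s * t, fun h => (hm.mem_or_mem h).elim hs ht, ?_⟩
    have h1 : s * t * (a + b) = t * (s * a) + s * (t * b) := by ring
    rw [h1]
    exact add_mem (L.mul_mem_left _ hsa) (L.mul_mem_left _ htb)
  zero_mem' := ⟨1, (Ideal.ne_top_iff_one m).1 hm.ne_top, by simp⟩
  smul_mem' := by
    rintro c f ⟨s, hs, hsf⟩
    refine ⟨s, hs, ?_⟩
    rw [smul_eq_mul, show s * (c * f) = c * (s * f) by ring]
    exact L.mul_mem_left _ hsf

variable {m : Ideal S} [hm : m.IsPrime]

theorem mem_cl {L : Ideal S} {f : S} : f ∈ cl m L ↔ ∃ s, s ∉ m ∧ s * f ∈ L := Iff.rfl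

theorem le_cl (L : Ideal S) : L ≤ cl m L := fun f hf =>
  ⟨1, (Ideal.ne_top_iff_one m).1 hm.ne_top, by simpa using hf⟩

theorem cl_mono {L L' : Ideal S} (h : L ≤ L') : cl m L ≤ cl m L' := by
  rintro f ⟨s, hs, hsf⟩
  exact ⟨s, hs, h hsf⟩

theorem cl_cl (L : Ideal S) : cl m (cl m L) = cl m L := by
  refine le_antisymm ?_ (le_cl _)
  rintro f ⟨s, hs, t, ht, h⟩
  refine ⟨t * s, fun h => (hm.mem_or_mem h).elim ht hs, ?_⟩
  rwa [mul_assoc]

theorem cl_le_iff {L L' : Ideal S} : cl m L ≤ cl m L' ↔ L ≤ cl m L' :=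
  ⟨fun h => (le_cl L).trans h, fun h => (cl_mono h).trans (cl_cl L').le⟩

theorem cl_sup_cl (L A : Ideal S) : cl m (cl m L ⊔ A) = cl m (L ⊔ A) := by
  apply le_antisymm
  · rw [cl_le_iff]
    exact sup_le (cl_mono le_sup_left) (le_sup_right.trans (le_cl _))
  · exact cl_mono (sup_le_sup_right (le_cl _) _)

theorem cl_le {L : Ideal S} (h : L ≤ m) : cl m L ≤ m := by
  rintro f ⟨s, hs, hsf⟩
  exact (hm.mem_or_mem (h hsf)).resolve_left hs

/-- a finitely generated ideal inside `cl m L` is multiplied into `L` by one `s ∉ m` -/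
theorem exists_unif {L K : Ideal S} (hK : K.FG) (h : K ≤ cl m L) :
    ∃ s, s ∉ m ∧ ∀ f ∈ K, s * f ∈ L := by
  obtain ⟨T, hT⟩ := hK
  have h1 : ∀ f ∈ T, ∃ s, s ∉ m ∧ s * f ∈ L := fun f hf =>
    h (hT ▸ Ideal.subset_span hf : f ∈ K)
  classical
  have h2 : ∀ U : Finset S, (∀ f ∈ U, ∃ s, s ∉ m ∧ s * f ∈ L) →
      ∃ s, s ∉ m ∧ ∀ f ∈ U, s * f ∈ L := by
    intro U
    induction U using Finset.induction_on with
    | empty =>
      intro _
      exact ⟨1, (Ideal.ne_top_iff_one m).1 hm.ne_top, by simp⟩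
    | insert a U _ ih =>
      intro hU
      obtain ⟨s, hs, hsU⟩ := ih fun f hf => hU f (Finset.mem_insert_of_mem hf)
      obtain ⟨t, ht, hta⟩ := hU a (Finset.mem_insert_self _ _)
      refine ⟨s * t, fun h => (hm.mem_or_mem h).elim hs ht, ?_⟩
      intro f hf
      rcases Finset.mem_insert.1 hf with rfl | hf
      · rw [mul_assoc]
        exact L.mul_mem_left _ hta
      · rw [mul_comm s t, mul_assoc]
        exact L.mul_mem_left _ (hsU f hf)
  obtain ⟨s, hs, hsT⟩ := h2 T h1
  refine ⟨s, hs, ?_⟩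
  have h3 : K ≤ Submodule.comap (LinearMap.mulLeft S s) L := by
    rw [← hT, Ideal.span_le]
    intro f hf
    exact hsT f hf
  exact fun f hf => h3 hf

/-- the socle of `S/L` -/
def socm (k : Type*) {S : Type*} [Field k] [CommRing S] [Algebra k S] (m L : Ideal S) :
    Submodule k (S ⧸ L) where
  carrier := {x | ∀ a ∈ m, a • x = 0}
  add_mem' := by
    intro x y hx hy a ha
    rw [smul_add, hx a ha, hy a ha, add_zero]
  zero_mem' := by intro a _; simp
  smul_mem' := by
    intro c x hx a ha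
    rw [smul_comm, hx a ha, smul_zero]

omit hm in
theorem mk_mem_socm {L : Ideal S} {f : S} :
    (Submodule.Quotient.mk f : S ⧸ L) ∈ socm k m L ↔ ∀ a ∈ m, a * f ∈ L := by
  refine forall₂_congr fun a _ => ?_
  rw [← Submodule.Quotient.mk_smul, Submodule.Quotient.mk_eq_zero, smul_eq_mul]

/-- the dimension of the socle of `S/L` -/
noncomputable def typ (k : Type*) {S : Type*} [Field k] [CommRing S] [Algebra k S]
    (m L : Ideal S) : ℕ := Module.finrank k (socm k m L)

theorem finrank_eq_of_maps {P A B : Type*} [AddCommGroup P] [Module k P] [AddCommGroup A]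
    [Module k A] [AddCommGroup B] [Module k B] (f : P →ₗ[k] A) (g : P →ₗ[k] B)
    (hf : Function.Surjective f) (hg : Function.Surjective g) (h : ∀ p, f p = 0 ↔ g p = 0) :
    Module.finrank k A = Module.finrank k B := by
  have h1 : LinearMap.ker f = LinearMap.ker g := by
    ext p
    rw [LinearMap.mem_ker, LinearMap.mem_ker, h]
  have e1 := (f.quotKerEquivOfSurjective hf).finrank_eq
  have e2 := (g.quotKerEquivOfSurjective hg).finrank_eq
  rw [← e1, ← e2, h1]

/-- the type does not see what happens outside `m` -/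
theorem typ_cl [IsNoetherianRing S] (hk : ∀ a : S, ∃ c : k, a - algebraMap k S c ∈ m)
    (L : Ideal S) : typ k m (cl m L) = typ k m L := by
  classical
  -- the k-space (L : m)
  let P : Submodule k S :=
    { carrier := {f | ∀ a ∈ m, a * f ∈ L}
      add_mem' := by
        intro f g hf hg a ha
        rw [mul_add]
        exact add_mem (hf a ha) (hg a ha)
      zero_mem' := by intro a _; simp
      smul_mem' := by
        intro c f hf a ha
        rw [mul_smul_comm, Algebra.smul_def]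
        exact L.mul_mem_left _ (hf a ha) }
  have hunit : ∀ s : S, s ∉ m → ∃ c : k, c ≠ 0 ∧ s - algebraMap k S c ∈ m := by
    intro s hs
    obtain ⟨c, hc⟩ := hk s
    refine ⟨c, ?_, hc⟩
    rintro rfl
    rw [map_zero, sub_zero] at hc
    exact hs hc
  let q1 : P →ₗ[k] socm k m L :=
    { toFun := fun f => ⟨Submodule.Quotient.mk f.1, mk_mem_socm.2 f.2⟩
      map_add' := fun _ _ => rfl
      map_smul' := fun _ _ => rfl }
  let q2 : P →ₗ[k] socm k m (cl m L) :=
    { toFun := fun f => ⟨Submodule.Quotient.mk f.1,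
        mk_mem_socm.2 fun a ha => le_cl L (f.2 a ha)⟩
      map_add' := fun _ _ => rfl
      map_smul' := fun _ _ => rfl }
  have h1 : Function.Surjective q1 := by
    rintro ⟨x, hx⟩
    obtain ⟨f, rfl⟩ := Submodule.Quotient.mk_surjective _ x
    exact ⟨⟨f, mk_mem_socm.1 hx⟩, rfl⟩
  have h2 : Function.Surjective q2 := by
    rintro ⟨x, hx⟩
    obtain ⟨f, rfl⟩ := Submodule.Quotient.mk_surjective _ x
    have hf : ∀ a ∈ m, a * f ∈ cl m L := mk_mem_socm.1 hx
    have hK : m * Ideal.span {f} ≤ cl m L := by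
      rw [Ideal.mul_le]
      intro a ha b hb
      obtain ⟨c, rfl⟩ := Ideal.mem_span_singleton'.1 hb
      rw [show a * (c * f) = c * (a * f) by ring]
      exact (cl m L).mul_mem_left _ (hf a ha)
    obtain ⟨s, hs, hsK⟩ := exists_unif (m := m) (IsNoetherian.noetherian _) hK
    obtain ⟨c, hc0, hc⟩ := hunit s hs
    refine ⟨⟨c⁻¹ • (s * f), ?_⟩, ?_⟩
    · intro a ha
      rw [mul_smul_comm, Algebra.smul_def, show a * (s * f) = s * (a * f) by ring]
      exact L.mul_mem_left _ (hsK _ (Ideal.mul_mem_mul ha (Ideal.mem_span_singleton_self f)))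
    · apply Subtype.ext
      change (Submodule.Quotient.mk (c⁻¹ • (s * f)) : S ⧸ cl m L) = Submodule.Quotient.mk f
      rw [Submodule.Quotient.eq]
      have h3 : c⁻¹ • (s * f) - f = algebraMap k S c⁻¹ * ((s - algebraMap k S c) * f) := by
        have h4 : algebraMap k S c⁻¹ * algebraMap k S c = 1 := by
          rw [← map_mul, inv_mul_cancel₀ hc0, map_one]
        rw [Algebra.smul_def]
        linear_combination f * h4
      rw [h3]
      exact (cl m L).mul_mem_left _ (hf _ hc)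
  refine (finrank_eq_of_maps q1 q2 h1 h2 ?_).symm
  rintro ⟨f, hf⟩
  constructor
  · intro h
    have h3 : (Submodule.Quotient.mk f : S ⧸ L) = 0 := congrArg Subtype.val h
    apply Subtype.ext
    change (Submodule.Quotient.mk f : S ⧸ cl m L) = 0
    rw [Submodule.Quotient.mk_eq_zero] at h3 ⊢
    exact le_cl L h3
  · intro h
    have h3 : (Submodule.Quotient.mk f : S ⧸ cl m L) = 0 := congrArg Subtype.val h
    apply Subtype.ext
    change (Submodule.Quotient.mk f : S ⧸ L) = 0
    rw [Submodule.Quotient.mk_eq_zero] at h3 ⊢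
    obtain ⟨s, hs, hsf⟩ := h3
    obtain ⟨c, hc0, hc⟩ := hunit s hs
    have h4 : f = algebraMap k S c⁻¹ * (s * f - (s - algebraMap k S c) * f) := by
      have h4 : algebraMap k S c⁻¹ * algebraMap k S c = 1 := by
        rw [← map_mul, inv_mul_cancel₀ hc0, map_one]
      linear_combination (-f) * h4
    rw [h4]
    exact L.mul_mem_left _ (sub_mem hsf (hf _ hc))

theorem typ_congr_cl [IsNoetherianRing S] (hk : ∀ a : S, ∃ c : k, a - algebraMap k S c ∈ m)
    {L L' : Ideal S} (h : cl m L = cl m L') : typ k m L = typ k m L' := by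
  rw [← typ_cl hk L, h, typ_cl hk L']

/-- `x` is regular on `(S/L)_m`. -/
def RegAt (m : Ideal S) [m.IsPrime] (L : Ideal S) (x : S) : Prop :=
  ∀ f, x * f ∈ cl m L → f ∈ cl m L

theorem RegAt.congr {L L' : Ideal S} (h : cl m L = cl m L') {x : S} (hx : RegAt m L x) :
    RegAt m L' x := by
  intro f hf
  rw [← h] at hf ⊢
  exact hx f hf

omit hm in
/-- exchange of two regular elements, closed ideals -/
theorem typ_exchange_aux {L : Ideal S} {x y : S} (hx : x ∈ m) (hy : y ∈ m)
    (hxr : ∀ f, x * f ∈ L → f ∈ L) (hyr : ∀ f, y * f ∈ L → f ∈ L) :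
    typ k m (L ⊔ Ideal.span {x}) = typ k m (L ⊔ Ideal.span {y}) := by
  have hmem : ∀ {z f : S}, f ∈ L ⊔ Ideal.span {z} ↔ ∃ g, f - z * g ∈ L := by
    intro z f
    rw [sup_comm, Ideal.mem_span_singleton_sup]
    constructor
    · rintro ⟨a, b, hb, rfl⟩
      exact ⟨a, by simpa [mul_comm] using hb⟩
    · rintro ⟨g, hg⟩
      exact ⟨g, f - z * g, hg, by ring⟩
  let P : Submodule k (S × S) :=
    { carrier := {p | y * p.1 - x * p.2 ∈ L ∧ (∀ a ∈ m, a * p.1 ∈ L ⊔ Ideal.span {x}) ∧
        ∀ a ∈ m, a * p.2 ∈ L ⊔ Ideal.span {y}}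
      add_mem' := by
        rintro p q ⟨h1, h2, h3⟩ ⟨h4, h5, h6⟩
        refine ⟨?_, fun a ha => ?_, fun a ha => ?_⟩
        · have := add_mem h1 h4
          rw [Prod.fst_add, Prod.snd_add]
          convert this using 1
          ring
        · rw [Prod.fst_add, mul_add]
          exact add_mem (h2 a ha) (h5 a ha)
        · rw [Prod.snd_add, mul_add]
          exact add_mem (h3 a ha) (h6 a ha)
      zero_mem' := by
        refine ⟨by simp, fun a _ => by simp, fun a _ => by simp⟩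
      smul_mem' := by
        rintro c p ⟨h1, h2, h3⟩
        refine ⟨?_, fun a ha => ?_, fun a ha => ?_⟩
        · have := L.mul_mem_left (algebraMap k S c) h1
          rw [Prod.smul_fst, Prod.smul_snd, Algebra.smul_def, Algebra.smul_def]
          convert this using 1
          ring
        · rw [Prod.smul_fst, mul_smul_comm, Algebra.smul_def]
          exact Ideal.mul_mem_left _ _ (h2 a ha)
        · rw [Prod.smul_snd, mul_smul_comm, Algebra.smul_def]
          exact Ideal.mul_mem_left _ _ (h3 a ha) }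
  have key : ∀ {x y : S}, x ∈ m → y ∈ m → (∀ f, x * f ∈ L → f ∈ L) → ∀ u,
      (∀ a ∈ m, a * u ∈ L ⊔ Ideal.span {x}) → ∃ v, y * u - x * v ∈ L ∧
        ∀ a ∈ m, a * v ∈ L ⊔ Ideal.span {y} := by
    intro x y hx hy hxr u hu
    obtain ⟨v, hv⟩ := hmem.1 (hu y hy)
    refine ⟨v, hv, fun a ha => ?_⟩
    obtain ⟨w, hw⟩ := hmem.1 (hu a ha)
    rw [hmem]
    refine ⟨w, hxr _ ?_⟩
    have h1 : x * (a * v - y * w) = y * (a * u - x * w) - a * (y * u - x * v) := by ring
    rw [h1]
    exact sub_mem (L.mul_mem_left _ hw) (L.mul_mem_left _ hv)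
  let p1 : P →ₗ[k] socm k m (L ⊔ Ideal.span {x}) :=
    { toFun := fun p => ⟨Submodule.Quotient.mk p.1.1, mk_mem_socm.2 p.2.2.1⟩
      map_add' := fun _ _ => rfl
      map_smul' := fun _ _ => rfl }
  let p2 : P →ₗ[k] socm k m (L ⊔ Ideal.span {y}) :=
    { toFun := fun p => ⟨Submodule.Quotient.mk p.1.2, mk_mem_socm.2 p.2.2.2⟩
      map_add' := fun _ _ => rfl
      map_smul' := fun _ _ => rfl }
  refine finrank_eq_of_maps p1 p2 ?_ ?_ ?_
  · rintro ⟨z, hz⟩
    obtain ⟨u, rfl⟩ := Submodule.Quotient.mk_surjective _ z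
    have hu : ∀ a ∈ m, a * u ∈ L ⊔ Ideal.span {x} := mk_mem_socm.1 hz
    obtain ⟨v, hv1, hv2⟩ := key hx hy hxr u hu
    exact ⟨⟨(u, v), hv1, hu, hv2⟩, rfl⟩
  · rintro ⟨z, hz⟩
    obtain ⟨v, rfl⟩ := Submodule.Quotient.mk_surjective _ z
    have hv : ∀ a ∈ m, a * v ∈ L ⊔ Ideal.span {y} := mk_mem_socm.1 hz
    obtain ⟨u, hu1, hu2⟩ := key hy hx hyr v hv
    refine ⟨⟨(u, v), ?_, hu2, hv⟩, rfl⟩
    change y * u - x * v ∈ L
    rw [← neg_sub]
    exact neg_mem hu1
  · rintro ⟨⟨u, v⟩, h1, h2, h3⟩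
    have h1' : y * u - x * v ∈ L := h1
    have e1 : p1 ⟨⟨u, v⟩, h1, h2, h3⟩ = 0 ↔ u ∈ L ⊔ Ideal.span {x} := by
      rw [← Submodule.coe_eq_zero]
      exact Submodule.Quotient.mk_eq_zero _
    have e2 : p2 ⟨⟨u, v⟩, h1, h2, h3⟩ = 0 ↔ v ∈ L ⊔ Ideal.span {y} := by
      rw [← Submodule.coe_eq_zero]
      exact Submodule.Quotient.mk_eq_zero _
    rw [e1, e2, hmem, hmem]
    constructor
    · rintro ⟨g, hg⟩
      refine ⟨g, hxr _ ?_⟩
      have h5 : x * (v - y * g) = y * (u - x * g) - (y * u - x * v) := by ring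
      rw [h5]
      exact sub_mem (L.mul_mem_left _ hg) h1'
    · rintro ⟨g, hg⟩
      refine ⟨g, hyr _ ?_⟩
      have h5 : y * (u - x * g) = x * (v - y * g) + (y * u - x * v) := by ring
      rw [h5]
      exact add_mem (L.mul_mem_left _ hg) h1'

theorem typ_exchange [IsNoetherianRing S] (hk : ∀ a : S, ∃ c : k, a - algebraMap k S c ∈ m)
    {L : Ideal S} {x y : S} (hx : x ∈ m) (hy : y ∈ m) (hxr : RegAt m L x) (hyr : RegAt m L y) :
    typ k m (L ⊔ Ideal.span {x}) = typ k m (L ⊔ Ideal.span {y}) := by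
  rw [typ_congr_cl hk (cl_sup_cl L (Ideal.span {x})).symm,
    typ_congr_cl hk (cl_sup_cl L (Ideal.span {y})).symm]
  exact typ_exchange_aux hx hy hxr hyr

/-- swapping two elements of a regular sequence -/
theorem RegAt.swap [IsNoetherianRing S] [m.IsMaximal] {L : Ideal S} {y z : S} (hy : y ∈ m)
    (h1 : RegAt m L y) (h2 : RegAt m (L ⊔ Ideal.span {y}) z) :
    RegAt m L z ∧ RegAt m (L ⊔ Ideal.span {z}) y := by
  have hmem : ∀ {C : Ideal S} {z f : S}, f ∈ C ⊔ Ideal.span {z} ↔ ∃ g, f - z * g ∈ C := by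
    intro C z f
    rw [sup_comm, Ideal.mem_span_singleton_sup]
    constructor
    · rintro ⟨a, b, hb, rfl⟩
      exact ⟨a, by simpa [mul_comm] using hb⟩
    · rintro ⟨g, hg⟩
      exact ⟨g, f - z * g, hg, by ring⟩
  -- Nakayama
  have h3 : RegAt m L z := by
    set C := cl m L with hC
    let K : Ideal S := Submodule.comap (LinearMap.mulLeft S z) C
    have hK : ∀ f, f ∈ K ↔ z * f ∈ C := fun f => Iff.rfl
    have hstep : ∀ u ∈ K, ∃ s, s ∉ m ∧ s * u ∈ C ⊔ m * K := by
      intro u hu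
      have hzu : z * u ∈ cl m (L ⊔ Ideal.span {y}) := cl_mono le_sup_left ((hK u).1 hu)
      obtain ⟨s, hs, hsu⟩ := h2 u hzu
      obtain ⟨w, hw⟩ := hmem.1 hsu
      refine ⟨s, hs, ?_⟩
      have hwK : w ∈ K := by
        rw [hK]
        apply h1
        have h5 : y * (z * w) = s * (z * u) - z * (s * u - y * w) := by ring
        rw [h5]
        exact sub_mem (Ideal.mul_mem_left _ _ ((hK u).1 hu))
          (Ideal.mul_mem_left _ _ (le_cl L hw))
      have h6 : s * u = (s * u - y * w) + y * w := by ring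
      rw [h6]
      exact add_mem (Ideal.mem_sup_left (le_cl L hw))
        (Ideal.mem_sup_right (Ideal.mul_mem_mul hy hwK))
    have hCK : C ≤ K := fun f hf => (hK f).2 (C.mul_mem_left _ hf)
    -- K ≤ C + m K
    have hle : K ≤ C ⊔ m * K := by
      intro u hu
      obtain ⟨s, hs, hsu⟩ := hstep u hu
      obtain ⟨t, ht⟩ := Ideal.IsMaximal.exists_inv ‹m.IsMaximal› hs
      obtain ⟨a, ha, hta⟩ := ht
      have h7 : u = t * (s * u) + a * u := by
        have : u = (t * s + a) * u := by rw [hta, one_mul]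
        rw [← mul_assoc, ← add_mul]
        exact this
      rw [h7]
      exact add_mem (Ideal.mul_mem_left _ _ hsu) (Ideal.mem_sup_right (Ideal.mul_mem_mul ha hu))
    -- apply Nakayama to K/C
    have hN : (Submodule.map C.mkQ K) ≤ m • (Submodule.map C.mkQ K) := by
      rw [← Submodule.map_smul'']
      intro x hx
      obtain ⟨u, hu, rfl⟩ := hx
      obtain ⟨b, hb, c, hc, rfl⟩ := Submodule.mem_sup.1 (hle hu)
      refine ⟨c, ?_, ?_⟩
      · simpa using hc
      · have : C.mkQ b = 0 := by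
          rw [Submodule.mkQ_apply, Submodule.Quotient.mk_eq_zero]
          exact hb
        rw [map_add, this, zero_add]
    obtain ⟨r, hr, hr2⟩ := Submodule.exists_sub_one_mem_and_smul_eq_zero_of_fg_of_le_smul m _
      (IsNoetherian.noetherian _) hN
    intro f hf
    have h8 : r • (C.mkQ f) = 0 := hr2 _ ⟨f, (hK f).2 hf, rfl⟩
    rw [← map_smul, Submodule.mkQ_apply, Submodule.Quotient.mk_eq_zero, smul_eq_mul] at h8
    have hrm : r ∉ m := by
      intro h
      have : (1 : S) ∈ m := by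
        have := sub_mem h hr
        simpa using this
      exact (Ideal.ne_top_iff_one m).1 hm.ne_top this
    have h9 : f ∈ cl m C := ⟨r, hrm, h8⟩
    rwa [hC, cl_cl] at h9
  refine ⟨h3, ?_⟩
  intro f hf
  obtain ⟨s, hs, hsf⟩ := hf
  obtain ⟨g, hg⟩ := hmem.1 hsf
  -- z g ∈ L + (y)
  have hg1 : z * g ∈ cl m (L ⊔ Ideal.span {y}) := by
    apply le_cl
    rw [hmem]
    refine ⟨s * f, ?_⟩
    have : z * g - y * (s * f) = -(s * (y * f) - z * g) := by ring
    rw [this]
    exact neg_mem hg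
  obtain ⟨t, ht, htg⟩ := h2 g hg1
  obtain ⟨w, hw⟩ := hmem.1 htg
  have h4 : t * (s * f) - z * w ∈ cl m L := by
    apply h1
    have h5 : y * (t * (s * f) - z * w) = t * (s * (y * f) - z * g) + z * (t * g - y * w) := by
      ring
    rw [h5]
    exact add_mem (Ideal.mul_mem_left _ _ (le_cl L hg)) (Ideal.mul_mem_left _ _ (le_cl L hw))
  obtain ⟨r, hr, hrw⟩ := h4
  refine ⟨r * (t * s), ?_, ?_⟩
  · intro h
    rcases hm.mem_or_mem h with h | h
    · exact hr h
    · rcases hm.mem_or_mem h with h | h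
      · exact ht h
      · exact hs h
  · rw [hmem]
    refine ⟨r * w, ?_⟩
    have h6 : r * (t * s) * f - z * (r * w) = r * (t * (s * f) - z * w) := by ring
    rw [h6]
    exact hrw

end Pool.Agent.H90.CMR
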