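import Pool.Agent.H90.CMR.Red
import Pool.Agent.H6.CMT.Curv2

/-! `S/IJ` Cohen-Macaulay, `S/(I+J)` of embedding dimension at most `dim S/IJ + 1`. -/

namespace Pool.Agent.H90.CMR

open MvPolynomial Pool.Agent.H6.CMT RingTheory.Sequence

variable {k : Type*} [Field k]

/-- the Artinian case -/
theorem curv_artin {h : ℕ} (hh : 0 < h) (I J : Ideal (MvPolynomial (Fin h) k))
    (hI : I ≤ irr k h) (hJ : J ≤ irr k h) (c : ℕ) (hc : irr k h ^ c ≤ I * J)
    (x : MvPolynomial (Fin h) k) (hx : x ∈ irr k h)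
    (hIJ : irr k h ≤ Ideal.span {x} ⊔ (I ⊔ J)) : h ≤ cmType (I * J) := by
  have h1 := soc_lower I J x hI hJ hx hIJ c hc hh
  have hcI : irr k h ^ c ≤ I := hc.trans Ideal.mul_le_left
  have hcJ : irr k h ^ c ≤ J := hc.trans Ideal.mul_le_right
  have fI : Module.Finite k (MvPolynomial (Fin h) k ⧸ (irr k h * I)) := by
    refine finite_quot _ (c + 1) ?_
    rw [pow_succ']; exact Ideal.mul_mono_right hcI
  have fJ : Module.Finite k (MvPolynomial (Fin h) k ⧸ (irr k h * J)) := by
    refine finite_quot _ (c + 1) ?_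
    rw [pow_succ']; exact Ideal.mul_mono_right hcJ
  have h2 := krull_lower I hI c hcI
  have h3 := krull_lower J hJ c hcJ
  rw [cmType_eq]
  omega

/-- dimension of the space of linear forms in `Q` -/
theorem dim_linear {n : ℕ} (Q : Ideal (MvPolynomial (Fin n) k)) (hQ : Q ≤ irr k n)
    (hQ2 : irr k n ^ 2 ≤ Q) :
    n + 1 ≤ Module.finrank k ↥(LinearMap.range (lin k n) ⊓ Q.restrictScalars k) +
      Module.finrank k (MvPolynomial (Fin n) k ⧸ Q) := by
  have hfin : Module.Finite k (MvPolynomial (Fin n) k ⧸ Q) := finite_quot Q 2 hQ2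
  let T : (k × (Fin n → k)) →ₗ[k] (MvPolynomial (Fin n) k ⧸ Q) :=
    (Q.mkQ.restrictScalars k) ∘ₗ (LinearMap.coprod (Algebra.linearMap k _) (lin k n))
  have hT : ∀ p : k × (Fin n → k), T p = 0 ↔
      algebraMap k (MvPolynomial (Fin n) k) p.1 + lin k n p.2 ∈ Q := by
    intro p
    exact Submodule.Quotient.mk_eq_zero _
  have h1 := LinearMap.finrank_range_add_finrank_ker T
  rw [Module.finrank_prod, Module.finrank_self, Module.finrank_fin_fun] at h1
  have h2 : Module.finrank k (LinearMap.range T) ≤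
      Module.finrank k (MvPolynomial (Fin n) k ⧸ Q) := Submodule.finrank_le _
  have hker : ∀ p ∈ LinearMap.ker T, p.1 = 0 ∧ lin k n p.2 ∈ Q := by
    intro p hp
    rw [LinearMap.mem_ker, hT] at hp
    have h3 : p.1 = 0 := by
      have h4 := constantCoeff_of_mem _ (hQ hp)
      rw [map_add, constantCoeff_of_mem _ (lin_mem_irr n p.2), add_zero,
        MvPolynomial.algebraMap_eq, constantCoeff_C] at h4
      exact h4
    rw [h3, map_zero, zero_add] at hp
    exact ⟨h3, hp⟩
  let g : LinearMap.ker T →ₗ[k] ↥(LinearMap.range (lin k n) ⊓ Q.restrictScalars k) :=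
    { toFun := fun p => ⟨lin k n p.1.2, ⟨p.1.2, rfl⟩, (hker p.1 p.2).2⟩
      map_add' := by
        intro p q
        apply Subtype.ext
        change lin k n (p.1.2 + q.1.2) = _
        rw [map_add]
        rfl
      map_smul' := by
        intro c p
        apply Subtype.ext
        change lin k n (c • p.1.2) = _
        rw [map_smul]
        rfl }
  have hg : Function.Injective g := by
    intro p q hpq
    have h3 : lin k n p.1.2 = lin k n q.1.2 := congrArg Subtype.val hpq
    apply Subtype.ext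
    apply Prod.ext
    · rw [(hker p.1 p.2).1, (hker q.1 q.2).1]
    · exact lin_injective n h3
  have hfin2 : FiniteDimensional k ↥(LinearMap.range (lin k n) ⊓ Q.restrictScalars k) :=
    Submodule.finiteDimensional_of_le (S₂ := LinearMap.range (lin k n)) inf_le_left
  have h3 := LinearMap.finrank_le_finrank_of_injective hg
  omega

/-- a subspace of codimension at most one in the linear forms -/
theorem exists_missing {n : ℕ} (X : Submodule k (MvPolynomial (Fin n) k))
    (hX : X ≤ LinearMap.range (lin k n)) (hd : n ≤ Module.finrank k X + 1) :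
    ∃ x ∈ LinearMap.range (lin k n), LinearMap.range (lin k n) ≤ X ⊔ Submodule.span k {x} := by
  by_cases h : LinearMap.range (lin k n) ≤ X
  · exact ⟨0, Submodule.zero_mem _, h.trans le_sup_left⟩
  · obtain ⟨x, hx, hxX⟩ := SetLike.not_le_iff_exists.1 h
    refine ⟨x, hx, ?_⟩
    have hfin : FiniteDimensional k X :=
      Submodule.finiteDimensional_of_le (S₂ := LinearMap.range (lin k n)) hX
    have hlt : X < X ⊔ Submodule.span k {x} := by
      refine lt_of_le_of_ne le_sup_left fun h => hxX ?_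
      rw [h]
      exact Submodule.mem_sup_right (Submodule.mem_span_singleton_self x)
    have h1 := Submodule.finrank_lt_finrank_of_lt hlt
    have hfV : Module.finrank k (LinearMap.range (lin k n)) = n := by
      rw [LinearMap.finrank_range_of_inj (lin_injective n), Module.finrank_fin_fun]
    have h2 : X ⊔ Submodule.span k {x} ≤ LinearMap.range (lin k n) :=
      sup_le hX (by rw [Submodule.span_singleton_le_iff_mem]; exact hx)
    have h3 := Submodule.eq_of_le_of_finrank_le h2 (by rw [hfV]; omega)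
    exact h3.ge

theorem nakayama_pow {R : Type*} [CommRing R] (m A : Ideal R) (h : m ≤ A ⊔ m ^ 2) :
    ∀ j : ℕ, m ≤ A ⊔ m ^ (j + 1)
  | 0 => by rw [zero_add, pow_one]; exact le_sup_right
  | j + 1 => by
      have h1 := nakayama_pow m A h j
      refine h.trans (sup_le le_sup_left ?_)
      rw [pow_two, pow_succ' m (j + 1)]
      calc m * m ≤ m * (A ⊔ m ^ (j + 1)) := Ideal.mul_mono_right h1
        _ = m * A ⊔ m * m ^ (j + 1) := Ideal.mul_sup _ _ _
        _ ≤ A ⊔ m * m ^ (j + 1) := sup_le_sup_right Ideal.mul_le_right _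

/-- in the Artinian case there is no regular sequence -/
theorem length_zero {n : ℕ} (I J : Ideal (MvPolynomial (Fin n) k)) (c : ℕ)
    (hc : irr k n ^ c ≤ I * J) (ys : List (MvPolynomial (Fin n) k))
    (hdim : (I * J).height + ys.length = n) : ys.length = 0 := by
  have h1 : (n : ℕ∞) ≤ (I * J).height := by
    rcases Nat.eq_zero_or_pos c with h0 | h0
    · rw [h0, pow_zero, Ideal.one_eq_top, top_le_iff] at hc
      rw [hc, Ideal.height_top]
      exact le_top
    · have h2 : (irr k n).height ≤ (irr k n ^ c).height := by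
        rw [Ideal.height_eq_inf_minimalPrimes (I := irr k n ^ c)]
        refine le_iInf₂ fun P hP => ?_
        have hPp : P.IsPrime := hP.1.1
        exact Ideal.height_mono (Ideal.IsPrime.le_of_pow_le hP.1.2)
      exact (height_irr.trans h2).trans (Ideal.height_mono hc)
  have h2 : (n : ℕ∞) + ys.length ≤ n := (add_le_add_left h1 _).trans hdim.le
  have h3 : n + ys.length ≤ n := by exact_mod_cast h2
  omega

/-- curvilinear `S/(I+J)`: `m = (x) + I + J` -/
theorem exists_curv {n : ℕ} (I J : Ideal (MvPolynomial (Fin n) k))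
    (hI : I ≤ irr k n) (hJ : J ≤ irr k n) (c : ℕ) (hc : irr k n ^ c ≤ I * J)
    (hcurv : Module.finrank k (MvPolynomial (Fin n) k ⧸ (I ⊔ J ⊔ irr k n ^ 2)) ≤ 2) :
    ∃ x ∈ irr k n, irr k n ≤ Ideal.span {x} ⊔ (I ⊔ J) := by
  set Q := I ⊔ J ⊔ irr k n ^ 2 with hQdef
  have hQ : Q ≤ irr k n := sup_le (sup_le hI hJ) (Ideal.pow_le_self two_ne_zero)
  have hW := dim_linear Q hQ le_sup_right
  obtain ⟨x, hx, hxV⟩ := exists_missing
    (LinearMap.range (lin k n) ⊓ Q.restrictScalars k) inf_le_left (by omega)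
  have hxm : x ∈ irr k n := by
    obtain ⟨a, rfl⟩ := hx
    exact lin_mem_irr n a
  refine ⟨x, hxm, ?_⟩
  have h1 : irr k n ≤ (Ideal.span {x} ⊔ (I ⊔ J)) ⊔ irr k n ^ 2 := by
    rw [← span_lin, Ideal.span_le, span_lin]
    intro v hv
    have h2 : LinearMap.range (lin k n) ⊓ Q.restrictScalars k ⊔ Submodule.span k {x} ≤
        ((Ideal.span {x} ⊔ (I ⊔ J)) ⊔ irr k n ^ 2).restrictScalars k := by
      refine sup_le ?_ ?_
      · rintro w ⟨_, hw⟩
        have h3 : Q ≤ (Ideal.span {x} ⊔ (I ⊔ J)) ⊔ irr k n ^ 2 :=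
          sup_le (le_sup_of_le_left le_sup_right) le_sup_right
        exact h3 hw
      · rw [Submodule.span_singleton_le_iff_mem]
        exact Ideal.mem_sup_left (Ideal.mem_sup_left (Ideal.mem_span_singleton_self x))
    exact h2 (hxV hv)
  refine (nakayama_pow _ _ h1 c).trans (sup_le le_rfl ?_)
  have h4 : irr k n ^ (c + 1) ≤ I :=
    (Ideal.pow_le_pow_right (Nat.le_succ c)).trans (hc.trans Ideal.mul_le_left)
  exact h4.trans (le_sup_of_le_right le_sup_left)

/-- **Huneke's inequality when `S/IJ` is Cohen-Macaulay and the embedding dimension of `S/(I+J)`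
is at most `dim S/IJ + 1`.** -/
theorem curv_general {n : ℕ} (I J : Ideal (MvPolynomial (Fin n) k))
    (hI : I ≤ irr k n) (hJ : J ≤ irr k n) (ys : List (MvPolynomial (Fin n) k))
    (hk : ys = [] ∨ Infinite k)
    (hys : ∀ y ∈ ys, y ∈ irr k n)
    (hreg : IsWeaklyRegular (MvPolynomial (Fin n) k ⧸ (I * J)) ys)
    (hdim : (I * J).height + ys.length = n)
    (hcurv : Module.finrank k (MvPolynomial (Fin n) k ⧸ (I ⊔ J ⊔ irr k n ^ 2)) ≤
      ys.length + 2) :
    (I * J).height ≤ cmType (I * J ⊔ Ideal.ofList ys) := by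
  set Q := I ⊔ J ⊔ irr k n ^ 2 with hQdef
  have hQ : Q ≤ irr k n := sup_le (sup_le hI hJ) (Ideal.pow_le_self two_ne_zero)
  have hQ2 : irr k n ^ 2 ≤ Q := le_sup_right
  have hW := dim_linear Q hQ hQ2
  set W := LinearMap.range (lin k n) ⊓ Q.restrictScalars k with hWdef
  obtain ⟨h, φ, c, hhd, hht, hφs, hφm, hc, htyp, -, hgen⟩ := reduction
    (fun _ : Unit => I * J) (fun _ => ys) ys.length
    (hk.imp (fun h => by rw [h]; rfl) id) (fun _ => rfl) (fun _ => hys)
    (fun _ => regSeq_of_weaklyRegular hreg) () hdim W inf_le_left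
  rw [hht]
  have htyp' := htyp ()
  rcases Nat.eq_zero_or_pos h with h0 | hh
  · rw [h0]
    simp
  -- positive power
  have hc1 : irr k n ^ (c + 1) ≤ cl (irr k n) (I * J ⊔ RingHom.ker φ) :=
    (Ideal.pow_le_pow_right (Nat.le_succ c)).trans hc
  have hmap : ∀ A : Ideal (MvPolynomial (Fin n) k), A ≤ irr k n →
      Ideal.map φ A ⊔ irr k h ^ (c + 1) ≤ irr k h := fun A hA =>
    sup_le ((Ideal.map_mono hA).trans hφm.le) (Ideal.pow_le_self (Nat.succ_ne_zero c))
  -- the linear form
  have hVfin : FiniteDimensional k (LinearMap.range (lin k n)) := inferInstance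
  obtain ⟨x, hx, hxV⟩ := exists_missing
    (W ⊔ (LinearMap.range (lin k n) ⊓ (RingHom.ker φ).restrictScalars k))
    (sup_le inf_le_left inf_le_left) (by omega)
  have h1 : irr k n ≤ Q ⊔ RingHom.ker φ ⊔ Ideal.span {x} := by
    rw [← span_lin, Ideal.span_le]
    intro v hv
    have h2 : W ⊔ (LinearMap.range (lin k n) ⊓ (RingHom.ker φ).restrictScalars k) ⊔
        Submodule.span k {x} ≤ (Q ⊔ RingHom.ker φ ⊔ Ideal.span {x}).restrictScalars k := by
      refine sup_le (sup_le ?_ ?_) ?_
      · rintro w ⟨_, hw⟩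
        exact Ideal.mem_sup_left (Ideal.mem_sup_left hw)
      · rintro w ⟨_, hw⟩
        exact Ideal.mem_sup_left (Ideal.mem_sup_right hw)
      · rw [Submodule.span_singleton_le_iff_mem]
        exact Ideal.mem_sup_right (Ideal.mem_span_singleton_self x)
    exact h2 (hxV hv)
  have h2 : irr k h ≤ (Ideal.span {φ x} ⊔ (Ideal.map φ I ⊔ Ideal.map φ J)) ⊔ irr k h ^ 2 := by
    have h3 := Ideal.map_mono (f := φ) h1
    rw [hφm, Ideal.map_sup, Ideal.map_sup, hQdef, Ideal.map_sup, Ideal.map_sup,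
      map_pow_irr hφm, Ideal.map_span, Set.image_singleton] at h3
    have h4 : Ideal.map φ (RingHom.ker φ) = ⊥ := by
      rw [eq_bot_iff, Ideal.map_le_iff_le_comap]
      intro f hf
      exact hf
    rw [h4, sup_bot_eq] at h3
    refine h3.trans (sup_le (sup_le ?_ le_sup_right) ?_)
    · exact le_sup_of_le_left le_sup_right
    · exact le_sup_of_le_left le_sup_left
  have h3 := nakayama_pow _ _ h2 c
  have h4 : irr k h ≤ Ideal.span {φ x} ⊔ ((Ideal.map φ I ⊔ irr k h ^ (c + 1)) ⊔
      (Ideal.map φ J ⊔ irr k h ^ (c + 1))) := by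
    refine h3.trans (sup_le (sup_le le_sup_left (sup_le ?_ ?_)) ?_)
    · exact le_sup_of_le_right (le_sup_of_le_left le_sup_left)
    · exact le_sup_of_le_right (le_sup_of_le_right le_sup_left)
    · exact le_sup_of_le_right (le_sup_of_le_left le_sup_right)
  have h5 := curv_artin hh _ _ (hmap I hI) (hmap J hJ) ((c + 1) + (c + 1)) (by
    rw [pow_add]
    exact Ideal.mul_mono le_sup_right le_sup_right) (φ x) (by
      rw [← hφm]
      obtain ⟨a, rfl⟩ := hx
      exact Ideal.mem_map_of_mem _ (lin_mem_irr n a)) h4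
  rw [type_mul hφs hφm I J hc1, htyp', ← cmType_eq_typ] at h5
  exact_mod_cast h5

end Pool.Agent.H90.CMR
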