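import Pool.Agent.H90.CMR.GorG

/-! The general lower bound for the type, for Cohen-Macaulay quotients. -/

namespace Pool.Agent.H90.CMR

open MvPolynomial Pool.Agent.H6.CMT RingTheory.Sequence

variable {k : Type*} [Field k]

theorem mem_map_iff_cl {n h : ℕ} {φ : MvPolynomial (Fin n) k →ₐ[k] MvPolynomial (Fin h) k}
    (hφs : Function.Surjective φ) (hφm : Ideal.map φ (irr k n) = irr k h) {c : ℕ}
    (A : Ideal (MvPolynomial (Fin n) k)) (hc : irr k n ^ c ≤ cl (irr k n) (A ⊔ RingHom.ker φ))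
    (f : MvPolynomial (Fin n) k) :
    φ f ∈ Ideal.map φ A ⊔ irr k h ^ c ↔ f ∈ cl (irr k n) (A ⊔ RingHom.ker φ) := by
  have h1 : Ideal.map φ A ⊔ irr k h ^ c = Ideal.map φ (A ⊔ irr k n ^ c) := by
    rw [Ideal.map_sup, map_pow_irr hφm]
  have h2 := Ideal.comap_map_of_surjective φ hφs (A ⊔ irr k n ^ c)
  rw [h1, ← Ideal.mem_comap, h2]
  constructor
  · intro h4
    have h5 : (A ⊔ irr k n ^ c) ⊔ Ideal.comap φ ⊥ ≤ cl (irr k n) (A ⊔ RingHom.ker φ) :=
      sup_le (sup_le (le_sup_left.trans (le_cl _)) hc)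
        ((le_sup_right : RingHom.ker φ ≤ A ⊔ RingHom.ker φ).trans (le_cl _))
    exact h5 h4
  · rintro ⟨s, hs, hsf⟩
    -- s is a unit modulo m ^ c
    have h7 : IsCoprime (Ideal.span {s}) (irr k n) := by
      rw [Ideal.isCoprime_iff_sup_eq]
      by_contra hne
      have h8 : irr k n ≤ Ideal.span {s} ⊔ irr k n := le_sup_right
      have h9 := (irrMaximal (k := k) n).eq_of_le hne h8
      apply hs
      rw [h9]
      exact Ideal.mem_sup_left (Ideal.mem_span_singleton_self s)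
    have h6 : Ideal.span {s} ⊔ irr k n ^ c = ⊤ :=
      (Ideal.isCoprime_iff_sup_eq).1 (h7.pow_right)
    have h7 : (1 : MvPolynomial (Fin n) k) ∈ Ideal.span {s} ⊔ irr k n ^ c := by
      rw [h6]; trivial
    obtain ⟨u, hu, v, hv, huv⟩ := Submodule.mem_sup.1 h7
    obtain ⟨w, rfl⟩ := Ideal.mem_span_singleton'.1 hu
    have h8 : f = w * (s * f) + v * f := by
      have : f = (w * s + v) * f := by rw [huv, one_mul]
      rw [← mul_assoc, ← add_mul]
      exact this
    rw [h8]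
    have h9 : A ⊔ RingHom.ker φ ≤ (A ⊔ irr k n ^ c) ⊔ Ideal.comap φ ⊥ :=
      sup_le_sup le_sup_left le_rfl
    exact add_mem (Ideal.mul_mem_left _ _ (h9 hsf)) (Ideal.mem_sup_left
      (Ideal.mem_sup_right (Ideal.mul_mem_right _ _ hv)))

/-- quotient map as a `k`-linear map -/
noncomputable def qlin {S : Type*} [CommRing S] [Algebra k S] (L : Ideal S) : S →ₗ[k] (S ⧸ L) where
  toFun f := Submodule.Quotient.mk f
  map_add' _ _ := rfl
  map_smul' _ _ := rfl

theorem qlin_eq_zero {S : Type*} [CommRing S] [Algebra k S] (L : Ideal S) (f : S) :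
    qlin (k := k) L f = 0 ↔ f ∈ L := Submodule.Quotient.mk_eq_zero _

theorem qlin_surjective {S : Type*} [CommRing S] [Algebra k S] (L : Ideal S) :
    Function.Surjective (qlin (k := k) L) := Submodule.Quotient.mk_surjective _

theorem finrank_map_eq {n h : ℕ} {φ : MvPolynomial (Fin n) k →ₐ[k] MvPolynomial (Fin h) k}
    (hφs : Function.Surjective φ) (hφm : Ideal.map φ (irr k n) = irr k h) {c : ℕ}
    (A : Ideal (MvPolynomial (Fin n) k)) (hc : irr k n ^ c ≤ cl (irr k n) (A ⊔ RingHom.ker φ)) :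
    Module.finrank k (MvPolynomial (Fin h) k ⧸ (Ideal.map φ A ⊔ irr k h ^ c)) =
      Module.finrank k (MvPolynomial (Fin n) k ⧸ cl (irr k n) (A ⊔ RingHom.ker φ)) := by
  refine finrank_eq_of_maps ((qlin (k := k) (Ideal.map φ A ⊔ irr k h ^ c)) ∘ₗ φ.toLinearMap)
    (qlin (k := k) (cl (irr k n) (A ⊔ RingHom.ker φ))) ?_ ?_ ?_
  · exact (qlin_surjective (k := k) _).comp hφs
  · exact qlin_surjective _
  · intro f
    rw [qlin_eq_zero, LinearMap.comp_apply, qlin_eq_zero]
    exact mem_map_iff_cl hφs hφm A hc f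

/-- `cl` does not change an ideal containing a power of `m` -/
theorem cl_eq_self {n : ℕ} (L : Ideal (MvPolynomial (Fin n) k)) (c : ℕ)
    (hc : irr k n ^ c ≤ L) : cl (irr k n) L = L := by
  refine le_antisymm ?_ (le_cl L)
  rintro f ⟨s, hs, hsf⟩
  have h7 : IsCoprime (Ideal.span {s}) (irr k n) := by
    rw [Ideal.isCoprime_iff_sup_eq]
    by_contra hne
    have h8 : irr k n ≤ Ideal.span {s} ⊔ irr k n := le_sup_right
    have h9 := (irrMaximal (k := k) n).eq_of_le hne h8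
    apply hs
    rw [h9]
    exact Ideal.mem_sup_left (Ideal.mem_span_singleton_self s)
  have h6 : Ideal.span {s} ⊔ irr k n ^ c = ⊤ :=
    (Ideal.isCoprime_iff_sup_eq).1 (h7.pow_right)
  have h7 : (1 : MvPolynomial (Fin n) k) ∈ Ideal.span {s} ⊔ irr k n ^ c := by
    rw [h6]; trivial
  obtain ⟨u, hu, v, hv, huv⟩ := Submodule.mem_sup.1 h7
  obtain ⟨w, rfl⟩ := Ideal.mem_span_singleton'.1 hu
  have h8 : f = w * (s * f) + v * f := by
    have : f = (w * s + v) * f := by rw [huv, one_mul]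
    rw [← mul_assoc, ← add_mul]
    exact this
  rw [h8]
  exact add_mem (L.mul_mem_left _ hsf) (L.mul_mem_right _ (hc hv))

theorem finrank_mul_eq {n h : ℕ} {φ : MvPolynomial (Fin n) k →ₐ[k] MvPolynomial (Fin h) k}
    (hφs : Function.Surjective φ) (hφm : Ideal.map φ (irr k n) = irr k h) {c : ℕ}
    (I J : Ideal (MvPolynomial (Fin n) k))
    (hc : irr k n ^ c ≤ cl (irr k n) (I * J ⊔ RingHom.ker φ)) :
    Module.finrank k (MvPolynomial (Fin h) k ⧸
      ((Ideal.map φ I ⊔ irr k h ^ c) * (Ideal.map φ J ⊔ irr k h ^ c))) =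
      Module.finrank k (MvPolynomial (Fin n) k ⧸ cl (irr k n) (I * J ⊔ RingHom.ker φ)) := by
  set A := (I ⊔ irr k n ^ c) * (J ⊔ irr k n ^ c) with hA
  have hcl : cl (irr k n) (A ⊔ RingHom.ker φ) = cl (irr k n) (I * J ⊔ RingHom.ker φ) := by
    apply le_antisymm
    · rw [cl_le_iff]
      refine sup_le ?_ (le_sup_right.trans (le_cl _))
      rw [hA, Ideal.sup_mul, Ideal.mul_sup, Ideal.mul_sup]
      refine sup_le (sup_le (le_sup_left.trans (le_cl _)) ?_) (sup_le ?_ ?_)
      · exact Ideal.mul_le_right.trans hc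
      · exact Ideal.mul_le_left.trans hc
      · exact Ideal.mul_le_left.trans hc
    · exact cl_mono (sup_le_sup_right (Ideal.mul_mono le_sup_left le_sup_left) _)
  have hmapA : (Ideal.map φ I ⊔ irr k h ^ c) * (Ideal.map φ J ⊔ irr k h ^ c) =
      Ideal.map φ A ⊔ irr k h ^ (c + c) := by
    rw [hA, Ideal.map_mul, Ideal.map_sup, Ideal.map_sup, map_pow_irr hφm]
    refine (sup_eq_left.2 ?_).symm
    rw [pow_add]
    exact Ideal.mul_mono le_sup_right le_sup_right
  rw [hmapA, ← hcl]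
  apply finrank_map_eq hφs hφm
  rw [hcl]
  exact (Ideal.pow_le_pow_right (Nat.le_add_left c c)).trans hc

/-- **The general lower bound** for Cohen-Macaulay `S/IJ`: after cutting by suitable linear forms
`zs` all lengths at `m` are finite and satisfy the two inequalities of the Artinian case. -/
theorem gb_general {n : ℕ} (I J : Ideal (MvPolynomial (Fin n) k))
    (hI : I ≤ irr k n) (hJ : J ≤ irr k n) (ys : List (MvPolynomial (Fin n) k))
    (hk : ys = [] ∨ Infinite k)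
    (hys : ∀ y ∈ ys, y ∈ irr k n)
    (hreg : IsWeaklyRegular (MvPolynomial (Fin n) k ⧸ (I * J)) ys)
    (h : ℕ) (hh : 0 < h) (hht : (I * J).height = h) (hdim : h + ys.length = n) :
    ∃ zs : List (MvPolynomial (Fin n) k), zs.length = ys.length ∧
      (∀ z ∈ zs, z ∈ LinearMap.range (lin k n)) ∧
      (∃ c : ℕ, irr k n ^ c ≤ cl (irr k n) (I * J ⊔ Ideal.ofList zs)) ∧
      Module.finrank k (MvPolynomial (Fin n) k ⧸ cl (irr k n) (I ⊔ Ideal.ofList zs)) +
        Module.finrank k (MvPolynomial (Fin n) k ⧸ cl (irr k n) (J ⊔ Ideal.ofList zs)) + h ≤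
        Module.finrank k (MvPolynomial (Fin n) k ⧸ cl (irr k n) (I * J ⊔ Ideal.ofList zs)) + 1 ∧
      Module.finrank k (MvPolynomial (Fin n) k ⧸ cl (irr k n) (I ⊔ J ⊔ Ideal.ofList zs)) + h ≤
        cmType (I * J ⊔ Ideal.ofList ys) * Module.finrank k
          (MvPolynomial (Fin n) k ⧸ cl (irr k n) (I ⊔ J ⊔ Ideal.ofList zs)) + 1 := by
  obtain ⟨h', φ, c, hhd, hht', hφs, hφm, hc, htyp, ⟨zs, hzl, hzV, hker⟩, -⟩ := reduction
    (fun _ : Unit => I * J) (fun _ => ys) ys.length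
    (hk.imp (fun h => by rw [h]; rfl) id) (fun _ => rfl) (fun _ => hys)
    (fun _ => regSeq_of_weaklyRegular hreg) () (by rw [hht]; exact_mod_cast hdim) ⊥ bot_le
  obtain rfl : h' = h := by
    have : ((h' : ℕ) : ℕ∞) = (h : ℕ) := hht'.symm.trans hht
    exact_mod_cast this
  have htyp' : typ k (irr k n) (I * J ⊔ RingHom.ker φ) =
      typ k (irr k n) (I * J ⊔ Ideal.ofList ys) := htyp ()
  have hc1 : irr k n ^ (c + 1) ≤ cl (irr k n) (I * J ⊔ RingHom.ker φ) :=
    (Ideal.pow_le_pow_right (Nat.le_succ c)).trans hc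
  have hcI : irr k n ^ (c + 1) ≤ cl (irr k n) (I ⊔ RingHom.ker φ) :=
    hc1.trans (cl_mono (sup_le_sup_right Ideal.mul_le_left _))
  have hcJ : irr k n ^ (c + 1) ≤ cl (irr k n) (J ⊔ RingHom.ker φ) :=
    hc1.trans (cl_mono (sup_le_sup_right Ideal.mul_le_right _))
  have hcS : irr k n ^ (c + 1) ≤ cl (irr k n) (I ⊔ J ⊔ RingHom.ker φ) :=
    hcI.trans (cl_mono (sup_le_sup_right le_sup_left _))
  have hmap : ∀ A : Ideal (MvPolynomial (Fin n) k), A ≤ irr k n →
      Ideal.map φ A ⊔ irr k h' ^ (c + 1) ≤ irr k h' := fun A hA =>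
    sup_le ((Ideal.map_mono hA).trans hφm.le) (Ideal.pow_le_self (Nat.succ_ne_zero c))
  set I' := Ideal.map φ I ⊔ irr k h' ^ (c + 1) with hI'
  set J' := Ideal.map φ J ⊔ irr k h' ^ (c + 1) with hJ'
  have hc2 : irr k h' ^ ((c + 1) + (c + 1)) ≤ I' * J' := by
    rw [pow_add]
    exact Ideal.mul_mono le_sup_right le_sup_right
  have h1 := Pool.Agent.H74.GB.main_lower hh I' J' (hmap I hI) (hmap J hJ) _ hc2
  have hIJ : I' * J' ≤ I' ⊓ J' := Ideal.mul_le_inf
  have fIJ := finite_quot _ _ hc2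
  have fA : Module.Finite k (MvPolynomial (Fin h') k ⧸ (I' ⊓ J')) := finite_quot _ _ (hc2.trans hIJ)
  have h2 := dq_eq (I' * J') (I' ⊓ J') hIJ
  have h3 := dq_modular I' J'
  have h4 := Pool.Agent.H48.CMS.type_bound I' J' _ hc2
  rw [hI', hJ', type_mul hφs hφm I J hc1, htyp', ← cmType_eq_typ, ← hI', ← hJ'] at h4
  have e1 : Module.finrank k (MvPolynomial (Fin h') k ⧸ I') = Module.finrank k
      (MvPolynomial (Fin n) k ⧸ cl (irr k n) (I ⊔ Ideal.ofList zs)) := by
    rw [← hker]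
    exact finrank_map_eq hφs hφm I hcI
  have e2 : Module.finrank k (MvPolynomial (Fin h') k ⧸ J') = Module.finrank k
      (MvPolynomial (Fin n) k ⧸ cl (irr k n) (J ⊔ Ideal.ofList zs)) := by
    rw [← hker]
    exact finrank_map_eq hφs hφm J hcJ
  have e3 : Module.finrank k (MvPolynomial (Fin h') k ⧸ (I' ⊔ J')) = Module.finrank k
      (MvPolynomial (Fin n) k ⧸ cl (irr k n) (I ⊔ J ⊔ Ideal.ofList zs)) := by
    rw [← hker, ← finrank_map_eq hφs hφm (I ⊔ J) hcS]
    have : I' ⊔ J' = Ideal.map φ (I ⊔ J) ⊔ irr k h' ^ (c + 1) := by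
      rw [hI', hJ', Ideal.map_sup]
      apply le_antisymm
      · exact sup_le (sup_le (le_sup_of_le_left le_sup_left) le_sup_right)
          (sup_le (le_sup_of_le_left le_sup_right) le_sup_right)
      · exact sup_le (sup_le (le_sup_of_le_left le_sup_left) (le_sup_of_le_right le_sup_left))
          (le_sup_of_le_left le_sup_right)
    rw [this]
  have e4 : Module.finrank k (MvPolynomial (Fin h') k ⧸ (I' * J')) = Module.finrank k
      (MvPolynomial (Fin n) k ⧸ cl (irr k n) (I * J ⊔ Ideal.ofList zs)) := by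
    rw [← hker]
    exact finrank_mul_eq hφs hφm I J hc1
  refine ⟨zs, hzl, hzV, ⟨c, by rw [← hker]; exact hc⟩, ?_, ?_⟩
  · rw [← e1, ← e2, ← e4]
    omega
  · rw [← e3]
    have h5 : Module.finrank k (MvPolynomial (Fin h') k ⧸ (I' ⊔ J')) + h' ≤
        cmType (I * J ⊔ Ideal.ofList ys) *
          Module.finrank k (MvPolynomial (Fin h') k ⧸ (I' ⊔ J')) + 1 := by omega
    exact h5

end Pool.Agent.H90.CMR
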