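import Pool.Agent.H90.CMR.Cl

/-! Regular sequences at `m`; generic elements of a space `V` generating `m`. -/

namespace Pool.Agent.H90.CMR

variable {k S : Type*} [Field k] [CommRing S] [Algebra k S] {m : Ideal S} [hm : m.IsPrime]

/-- `xs` is a regular sequence on `(S/L)_m`. -/
def RegSeq (m : Ideal S) [m.IsPrime] : Ideal S → List S → Prop
  | _, [] => True
  | L, x :: xs => RegAt m L x ∧ RegSeq m (L ⊔ Ideal.span {x}) xs

theorem RegSeq.congr : ∀ {xs : List S} {L L' : Ideal S}, cl m L = cl m L' →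
    RegSeq m L xs → RegSeq m L' xs
  | [], _, _, _, _ => trivial
  | x :: xs, L, L', h, hx => ⟨hx.1.congr h, RegSeq.congr (by
      rw [← cl_sup_cl L, h, cl_sup_cl]) hx.2⟩

theorem regSeq_append : ∀ {xs ys : List S} {L : Ideal S},
    RegSeq m L (xs ++ ys) ↔ RegSeq m L xs ∧ RegSeq m (L ⊔ Ideal.ofList xs) ys
  | [], ys, L => by simp [RegSeq]
  | x :: xs, ys, L => by
      rw [List.cons_append, RegSeq, RegSeq, regSeq_append, Ideal.ofList_cons, and_assoc, sup_assoc]

theorem RegSeq.move [IsNoetherianRing S] [m.IsMaximal] : ∀ {ys : List S} {L : Ideal S} {z : S},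
    (∀ y ∈ ys, y ∈ m) → RegSeq m L (ys ++ [z]) → RegAt m L z ∧ RegSeq m (L ⊔ Ideal.span {z}) ys
  | [], L, z, _, h => ⟨h.1, trivial⟩
  | y :: ys, L, z, hy, h => by
      rw [List.cons_append] at h
      obtain ⟨h1, h2⟩ := h
      obtain ⟨h3, h4⟩ := RegSeq.move (fun w hw => hy w (List.mem_cons_of_mem _ hw)) h2
      obtain ⟨h5, h6⟩ := RegAt.swap (hy y List.mem_cons_self) h1 h3
      refine ⟨h5, h6, ?_⟩
      rw [sup_right_comm]
      exact h4

/-- the associated primes of `S/cl m L` lie in `m` and do not contain a regular element -/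
theorem exists_primes [IsNoetherianRing S] (L : Ideal S) :
    ∃ T : Set (Ideal S), T.Finite ∧ (∀ P ∈ T, P.IsPrime ∧ P ≤ m ∧ ∀ y, RegAt m L y → y ∉ P) ∧
      ∀ z, (∀ P ∈ T, z ∉ P) → RegAt m L z := by
  refine ⟨associatedPrimes S (S ⧸ cl m L), associatedPrimes.finite S _, ?_, ?_⟩
  · intro P hP
    rw [AssociatedPrimes.mem_iff, isAssociatedPrime_iff] at hP
    obtain ⟨hP1, x, hx⟩ := hP
    obtain ⟨f, rfl⟩ := Submodule.Quotient.mk_surjective _ x
    have hmem : ∀ a, a ∈ P ↔ a * f ∈ cl m L := by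
      intro a
      rw [hx, Submodule.mem_colon_singleton, Submodule.mem_bot, ← Submodule.Quotient.mk_smul,
        Submodule.Quotient.mk_eq_zero, smul_eq_mul]
    have hf : f ∉ cl m L := by
      intro h
      apply hP1.ne_top
      rw [Ideal.eq_top_iff_one, hmem, one_mul]
      exact h
    refine ⟨hP1, ?_, ?_⟩
    · intro a ha
      by_contra ham
      apply hf
      rw [← cl_cl]
      exact ⟨a, ham, (hmem a).1 ha⟩
    · intro y hy hyP
      exact hf (hy f ((hmem y).1 hyP))
  · intro z hz f hf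
    by_contra hfL
    have h1 : z ∈ ⋃ p ∈ associatedPrimes S (S ⧸ cl m L), (p : Set S) := by
      rw [biUnion_associatedPrimes_eq_zero_divisors]
      refine ⟨Submodule.Quotient.mk f, ?_, ?_⟩
      · rwa [Ne, Submodule.Quotient.mk_eq_zero]
      · rwa [← Submodule.Quotient.mk_smul, Submodule.Quotient.mk_eq_zero, smul_eq_mul]
    obtain ⟨P, hP, hzP⟩ := Set.mem_iUnion₂.1 h1
    exact hz P hP hzP

/-- a generic element of `V` -/
theorem exists_generic [Infinite k] [IsNoetherianRing S] {ι κ : Type*} [Finite ι] [Finite κ]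
    (V : Submodule k S) (hV : Ideal.span (V : Set S) = m) (L : ι → Ideal S)
    (y : ι → S) (hy : ∀ i, y i ∈ m) (hr : ∀ i, RegAt m (L i) (y i)) (W : κ → Submodule k S) :
    ∃ z ∈ V, (∀ i, RegAt m (L i) z) ∧ ∀ j, ¬ V ≤ W j → z ∉ W j := by
  choose T hT1 hT2 hT3 using fun i => exists_primes (m := m) (L i)
  have hfin : ∀ i, Finite (T i) := fun i => hT1 i
  let ι' := (Σ i, T i) ⊕ {j : κ // ¬ V ≤ W j}
  let Q : ι' → Submodule k V := Sum.elim
    (fun p => Submodule.comap V.subtype (Submodule.restrictScalars k p.2.1))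
    (fun j => Submodule.comap V.subtype (W j.1))
  obtain ⟨z, hz⟩ := Submodule.exists_forall_notMem_of_forall_ne_top Q (by
    rintro (⟨i, P, hP⟩ | ⟨j, hj⟩)
    · intro h
      have h1 : (V : Set S) ⊆ P := by
        intro v hv
        have h2 : (⟨v, hv⟩ : V) ∈ Q (Sum.inl ⟨i, P, hP⟩) := by rw [h]; trivial
        exact h2
      have h2 : m ≤ P := by
        rw [← hV, Ideal.span_le]
        exact h1
      exact (hT2 i P hP).2.2 _ (hr i) (h2 (hy i))
    · intro h
      apply hj
      intro v hv
      have h2 : (⟨v, hv⟩ : V) ∈ Q (Sum.inr ⟨j, hj⟩) := by rw [h]; trivial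
      exact h2)
  refine ⟨z.1, z.2, fun i => hT3 i z.1 fun P hP hzP => ?_, fun j hj hzW => ?_⟩
  · exact hz (Sum.inl ⟨i, P, hP⟩) hzP
  · exact hz (Sum.inr ⟨j, hj⟩) hzW

/-- **Generic specialisation.** -/
theorem exists_generic_seq [Infinite k] [IsNoetherianRing S] [m.IsMaximal]
    (hk : ∀ a : S, ∃ c : k, a - algebraMap k S c ∈ m) {ι κ : Type*} [Finite ι] [Finite κ]
    (V : Submodule k S) [FiniteDimensional k V] (hV : Ideal.span (V : Set S) = m) :
    ∀ (d : ℕ) (L : ι → Ideal S) (ys : ι → List S) (W : κ → Submodule k S),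
      (∀ j, W j ≤ V) → (∀ i, (ys i).length = d) → (∀ i, ∀ y ∈ ys i, y ∈ m) →
      (∀ i, RegSeq m (L i) (ys i)) →
      ∃ zs : List S, zs.length = d ∧ (∀ z ∈ zs, z ∈ V) ∧ (∀ i, RegSeq m (L i) zs) ∧
        (∀ i, typ k m (L i ⊔ Ideal.ofList zs) = typ k m (L i ⊔ Ideal.ofList (ys i))) ∧
        ∀ j, min (Module.finrank k V) (Module.finrank k (W j) + d) ≤
          Module.finrank k ↥(W j ⊔ Submodule.span k {z | z ∈ zs}) := by
  intro d
  induction d with
  | zero =>
    intro L ys W hW hlen hmem hreg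
    refine ⟨[], rfl, by simp, fun i => trivial, fun i => ?_, fun j => ?_⟩
    · rw [List.length_eq_zero_iff.1 (hlen i)]
    · have h1 : {z : S | z ∈ ([] : List S)} = ∅ := by ext; simp
      rw [h1, Submodule.span_empty, sup_bot_eq]
      exact min_le_right _ _
  | succ d ih =>
    intro L ys W hW hlen hmem hreg
    have hex : ∀ i, ∃ (ys' : List S) (y : S), ys i = ys' ++ [y] ∧ ys'.length = d := by
      intro i
      rcases List.eq_nil_or_concat (ys i) with h | ⟨ys', y, h⟩
      · have := hlen i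
        rw [h] at this
        simp at this
      · refine ⟨ys', y, by rw [h, List.concat_eq_append], ?_⟩
        have := hlen i
        rw [h, List.concat_eq_append] at this
        simpa using this
    choose ys' y hys hys' using hex
    have hmem' : ∀ i, ∀ w ∈ ys' i, w ∈ m := fun i w hw =>
      hmem i w (by rw [hys i]; exact List.mem_append_left _ hw)
    have hymem : ∀ i, y i ∈ m := fun i => hmem i _ (by rw [hys i]; simp)
    have hreg' : ∀ i, RegSeq m (L i) (ys' i) ∧ RegAt m (L i ⊔ Ideal.ofList (ys' i)) (y i) := by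
      intro i
      have := hreg i
      rw [hys i, regSeq_append] at this
      exact ⟨this.1, this.2.1⟩
    obtain ⟨z, hzV, hz1, hz2⟩ := exists_generic V hV (fun i => L i ⊔ Ideal.ofList (ys' i)) y
      hymem (fun i => (hreg' i).2) W
    have hVm : ∀ v ∈ V, v ∈ m := fun v hv => hV ▸ Ideal.subset_span hv
    have hmove : ∀ i, RegAt m (L i) z ∧ RegSeq m (L i ⊔ Ideal.span {z}) (ys' i) := fun i =>
      RegSeq.move (hmem' i) (regSeq_append.2 ⟨(hreg' i).1, hz1 i, trivial⟩)
    obtain ⟨zs, hl, hzsV, hzsr, hzst, hzsd⟩ := ih (fun i => L i ⊔ Ideal.span {z}) ys'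
      (fun j => W j ⊔ Submodule.span k {z}) (fun j => sup_le (hW j) (by
        rw [Submodule.span_singleton_le_iff_mem]; exact hzV)) hys' hmem' fun i => (hmove i).2
    refine ⟨z :: zs, by simp [hl], ?_, fun i => ⟨(hmove i).1, hzsr i⟩, fun i => ?_, fun j => ?_⟩
    · intro w hw
      rcases List.mem_cons.1 hw with rfl | hw
      · exact hzV
      · exact hzsV w hw
    · rw [Ideal.ofList_cons, ← sup_assoc, hzst i, sup_right_comm,
        typ_exchange hk (hVm z hzV) (hymem i) (hz1 i) (hreg' i).2, hys i, Ideal.ofList_append,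
        Ideal.ofList_singleton, sup_assoc]
    · have hset : {w : S | w ∈ z :: zs} = {z} ∪ {w | w ∈ zs} := by
        ext w
        simp
      rw [hset, Submodule.span_union, ← sup_assoc]
      refine le_trans ?_ (hzsd j)
      by_cases hj : V ≤ W j
      · have h1 : V ≤ W j ⊔ Submodule.span k {z} := hj.trans le_sup_left
        have h2 : W j ⊔ Submodule.span k {z} = V := le_antisymm (sup_le (hW j) (by
          rw [Submodule.span_singleton_le_iff_mem]; exact hzV)) h1
        rw [h2]
        omega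
      · have hzW := hz2 j hj
        have : FiniteDimensional k (W j) := Submodule.finiteDimensional_of_le (hW j)
        have hlt : W j < W j ⊔ Submodule.span k {z} := by
          refine lt_of_le_of_ne le_sup_left fun h => hzW ?_
          rw [h]
          exact Submodule.mem_sup_right (Submodule.mem_span_singleton_self z)
        have := Submodule.finrank_lt_finrank_of_lt hlt
        omega

end Pool.Agent.H90.CMR
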