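import Pool.Agent.H90.CMR.CurvG
import Pool.Agent.H48.CMS.LimitDef
import Pool.Agent.H74.GSq.Gor
import Pool.Agent.H74.GB.Count
import Pool.Agent.H48.CMS.Soc

/-! Squares of Gorenstein ideals, and the general lower bound, for Cohen-Macaulay quotients. -/

namespace Pool.Agent.H90.CMR

open MvPolynomial Pool.Agent.H6.CMT RingTheory.Sequence

universe u

variable {k : Type u} [Field k]

/-- **Huneke's inequality for squares of Gorenstein ideals.** -/
theorem gor_general [CharZero k] {n : ℕ} (I : Ideal (MvPolynomial (Fin n) k))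
    (hI : I ≤ irr k n) (ys xs : List (MvPolynomial (Fin n) k))
    (hys : ∀ y ∈ ys, y ∈ irr k n) (hxs : ∀ x ∈ xs, x ∈ irr k n)
    (hreg : IsWeaklyRegular (MvPolynomial (Fin n) k ⧸ (I * I)) ys)
    (hdim : (I * I).height + ys.length = n)
    (hlen : xs.length = ys.length)
    (hxreg : IsWeaklyRegular (MvPolynomial (Fin n) k ⧸ I) xs)
    (hgor : cmType (I ⊔ Ideal.ofList xs) = 1) :
    (I * I).height ≤ cmType (I * I ⊔ Ideal.ofList ys) := by
  obtain ⟨h, φ, c, hhd, hht, hφs, hφm, hc, htyp, -, -⟩ := reduction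
    (fun b : Bool => cond b (I * I) I) (fun b => cond b ys xs) ys.length (Or.inr inferInstance)
    (by rintro (_ | _); exacts [hlen, rfl]) (by rintro (_ | _); exacts [hxs, hys])
    (by
      rintro (_ | _)
      · exact regSeq_of_weaklyRegular hxreg
      · exact regSeq_of_weaklyRegular hreg) true hdim ⊥ bot_le
  have hht' : (I * I).height = h := hht
  rw [hht']
  have h1 : typ k (irr k n) (I * I ⊔ RingHom.ker φ) =
      typ k (irr k n) (I * I ⊔ Ideal.ofList ys) := htyp true
  have h2 : typ k (irr k n) (I ⊔ RingHom.ker φ) = typ k (irr k n) (I ⊔ Ideal.ofList xs) :=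
    htyp false
  have hc1 : irr k n ^ (c + 1) ≤ cl (irr k n) (I * I ⊔ RingHom.ker φ) :=
    (Ideal.pow_le_pow_right (Nat.le_succ c)).trans hc
  have hc2 : irr k n ^ (c + 1) ≤ cl (irr k n) (I ⊔ RingHom.ker φ) :=
    hc1.trans (cl_mono (sup_le_sup_right Ideal.mul_le_left _))
  set I' := Ideal.map φ I ⊔ irr k h ^ (c + 1) with hI'
  have hle : I' ≤ irr k h :=
    sup_le ((Ideal.map_mono hI).trans hφm.le) (Ideal.pow_le_self (Nat.succ_ne_zero c))
  have hcI : irr k h ^ (c + 1) ≤ I' := le_sup_right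
  have hG : cmType I' = 1 := by
    rw [hI', type_one hφs hφm I hc2, h2, ← cmType_eq_typ, hgor]
  have hfin : Module.Finite k (MvPolynomial (Fin h) k ⧸ I') := finite_quot _ _ hcI
  have hpos : Module.finrank k (MvPolynomial (Fin h) k ⧸ I') ≠ 0 := by
    have hnt : Nontrivial (MvPolynomial (Fin h) k ⧸ I') := by
      rw [Submodule.Quotient.nontrivial_iff]
      intro htop
      rw [htop] at hle
      exact (irrPrime (k := k) h).ne_top (top_le_iff.1 hle)
    exact (Module.finrank_pos (R := k)).ne'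
  have h3 := Pool.Agent.H74.GSq.gor_square I' (c + 1) hcI hG (by
    rw [Nat.cast_ne_zero]
    exact mul_ne_zero (Nat.factorial_ne_zero h) hpos)
  rw [hI', type_mul hφs hφm I I hc1, h1, ← cmType_eq_typ] at h3
  exact_mod_cast h3

end Pool.Agent.H90.CMR
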