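import Pool.Agent.H90.CMR.Gen

/-! Heights along a regular sequence. -/

namespace Pool.Agent.H90.CMR

variable {S : Type*} [CommRing S] {m : Ideal S} [hm : m.IsPrime]

/-- every prime between `L` and `m` has height at least `e` -/
def HB (m L : Ideal S) (e : ℕ∞) : Prop := ∀ P : Ideal S, P.IsPrime → L ≤ P → P ≤ m → e ≤ P.height

theorem HB.step [IsNoetherianRing S] {L : Ideal S} {e : ℕ∞} {z : S} (h : HB m L e)
    (hz : RegAt m L z) : HB m (L ⊔ Ideal.span {z}) (e + 1) := by
  intro P hP hLP hPm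
  have hL : L ≤ P := le_sup_left.trans hLP
  have hzP : z ∈ P := hLP (Ideal.mem_sup_right (Ideal.mem_span_singleton_self z))
  obtain ⟨Q, hQ, hQP⟩ := Ideal.exists_minimalPrimes_le hL
  have hQp : Q.IsPrime := hQ.1.1
  have hQm : Q ≤ m := hQP.trans hPm
  have hzQ : z ∉ Q := by
    intro hzQ
    have h1 : Q ∈ associatedPrimes S (S ⧸ L) := by
      apply Module.associatedPrimes.minimalPrimes_annihilator_subset_associatedPrimes
      rw [Ideal.annihilator_quotient]
      exact hQ
    rw [AssociatedPrimes.mem_iff, isAssociatedPrime_iff] at h1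
    obtain ⟨_, x, hx⟩ := h1
    obtain ⟨f, rfl⟩ := Submodule.Quotient.mk_surjective _ x
    have hmem : ∀ a, a ∈ Q ↔ a * f ∈ L := by
      intro a
      rw [hx, Submodule.mem_colon_singleton, Submodule.mem_bot, ← Submodule.Quotient.mk_smul,
        Submodule.Quotient.mk_eq_zero, smul_eq_mul]
    obtain ⟨s, hs, hsf⟩ := hz f (le_cl L ((hmem z).1 hzQ))
    exact hs (hQm ((hmem s).2 hsf))
  have hlt : Q < P := lt_of_le_of_ne hQP fun h => hzQ (h ▸ hzP)
  exact (add_le_add_left (h Q hQp hQ.1.2 hQm) 1).trans (Ideal.height_add_one_le_of_lt_of_isPrime hlt)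

theorem HB.seq [IsNoetherianRing S] : ∀ {zs : List S} {L : Ideal S} {e : ℕ∞}, HB m L e →
    RegSeq m L zs → HB m (L ⊔ Ideal.ofList zs) (e + zs.length)
  | [], L, e, h, _ => by simpa using h
  | z :: zs, L, e, h, hz => by
      have h1 := HB.seq (h.step hz.1) hz.2
      rw [Ideal.ofList_cons, ← sup_assoc, List.length_cons]
      convert h1 using 1
      push_cast
      ring

omit hm in
theorem hb_height (L : Ideal S) : HB m L L.height := fun _ _ h _ => Ideal.height_mono h

/-- if every prime between `L` and `m` has height `≥ ht m` then `L` is `m`-primary at `m` -/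
theorem HB.pow_le [IsNoetherianRing S] [m.IsMaximal] {L : Ideal S}
    (h : HB m L m.height) : ∃ c : ℕ, m ^ c ≤ cl m L := by
  have hfin : m.height ≠ ⊤ := Ideal.height_ne_top hm.ne_top
  have h1 : ∀ P : Ideal S, P.IsPrime → L ≤ P → P ≤ m → P = m := by
    intro P hP hLP hPm
    by_contra hne
    have hlt : P < m := lt_of_le_of_ne hPm hne
    have h2 := Ideal.height_add_one_le_of_lt_of_isPrime hlt
    have h3 := h P hP hLP hPm
    have h4 : m.height + 1 ≤ m.height := (add_le_add_left h3 1).trans h2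
    exact absurd h4 (not_le_of_gt (ENat.lt_add_one_iff hfin |>.2 le_rfl))
  apply Ideal.exists_pow_le_of_le_radical_of_fg _ (IsNoetherian.noetherian _)
  rw [Ideal.radical_eq_sInf]
  refine le_sInf ?_
  rintro P ⟨hLP, hP⟩
  obtain ⟨Q, hQ, hQP⟩ := Ideal.exists_minimalPrimes_le hLP
  have hQm : Q ≤ m := by
    have h1 : Q ∈ associatedPrimes S (S ⧸ cl m L) := by
      apply Module.associatedPrimes.minimalPrimes_annihilator_subset_associatedPrimes
      rw [Ideal.annihilator_quotient]
      exact hQ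
    rw [AssociatedPrimes.mem_iff, isAssociatedPrime_iff] at h1
    obtain ⟨_, x, hx⟩ := h1
    obtain ⟨f, rfl⟩ := Submodule.Quotient.mk_surjective _ x
    have hmem : ∀ a, a ∈ Q ↔ a * f ∈ cl m L := by
      intro a
      rw [hx, Submodule.mem_colon_singleton, Submodule.mem_bot, ← Submodule.Quotient.mk_smul,
        Submodule.Quotient.mk_eq_zero, smul_eq_mul]
    intro a ha
    by_contra ham
    have hf : f ∈ cl m L := by
      rw [← cl_cl]
      exact ⟨a, ham, (hmem a).1 ha⟩
    apply hQ.1.1.ne_top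
    rw [Ideal.eq_top_iff_one, hmem, one_mul]
    exact hf
  rw [← h1 Q hQ.1.1 ((le_cl L).trans hQ.1.2) hQm]
  exact hQP

end Pool.Agent.H90.CMR
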