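import Pool.Agent.H90.CMR.Red

/-! The type does not depend on the regular sequence. -/

namespace Pool.Agent.H90.CMR

open MvPolynomial Pool.Agent.H6.CMT RingTheory.Sequence

variable {k : Type*} [Field k]

/-- `dim_k Hom(k, S/(L + (ys)))` is the same for all `S/L`-regular sequences `ys` in `m` of the
same length. -/
theorem cmType_indep [Infinite k] {n : ℕ} (L : Ideal (MvPolynomial (Fin n) k))
    (ys ys' : List (MvPolynomial (Fin n) k)) (hys : ∀ y ∈ ys, y ∈ irr k n)
    (hys' : ∀ y ∈ ys', y ∈ irr k n) (hreg : IsWeaklyRegular (MvPolynomial (Fin n) k ⧸ L) ys)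
    (hreg' : IsWeaklyRegular (MvPolynomial (Fin n) k ⧸ L) ys') (hlen : ys'.length = ys.length) :
    cmType (L ⊔ Ideal.ofList ys) = cmType (L ⊔ Ideal.ofList ys') := by
  obtain ⟨zs, -, -, -, hz, -⟩ := exists_generic_seq (m := irr k n) (irr_resid n)
    (LinearMap.range (lin k n)) (span_lin n) ys.length (fun _ : Bool => L)
    (fun b => cond b ys ys') (fun _ : Bool => (⊥ : Submodule k _)) (fun _ => bot_le)
    (by rintro (_ | _); exacts [hlen, rfl]) (by rintro (_ | _); exacts [hys', hys])
    (by
      rintro (_ | _)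
      · exact regSeq_of_weaklyRegular hreg'
      · exact regSeq_of_weaklyRegular hreg)
  rw [cmType_eq_typ, cmType_eq_typ]
  exact (hz true).symm.trans (hz false)

end Pool.Agent.H90.CMR
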