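import Pool.Agent.H90.CMR.Var
import Pool.Agent.H6.CMT.Main

/-! Reduction of Cohen-Macaulay quotients of a polynomial ring to Artinian ones by generic linear
forms. -/

namespace Pool.Agent.H90.CMR

open MvPolynomial Pool.Agent.H6.CMT RingTheory.Sequence
open scoped Pointwise

section reg

variable {S : Type*} [CommRing S] {m : Ideal S} [hm : m.IsPrime]

theorem regSeq_of_weaklyRegular : ∀ {ys : List S} {L : Ideal S},
    IsWeaklyRegular (S ⧸ L) ys → RegSeq m L ys
  | [], _, _ => trivial
  | y :: ys, L, h => by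
      obtain ⟨h1, h2⟩ := (isWeaklyRegular_cons_iff _ _ _).1 h
      refine ⟨?_, ?_⟩
      · rintro f ⟨s, hs, hsf⟩
        refine ⟨s, hs, ?_⟩
        have h3 : y • (Submodule.Quotient.mk (s * f) : S ⧸ L) = y • (0 : S ⧸ L) := by
          rw [smul_zero, ← Submodule.Quotient.mk_smul, Submodule.Quotient.mk_eq_zero, smul_eq_mul,
            show y * (s * f) = s * (y * f) by ring]
          exact hsf
        have h4 := h1 h3
        rwa [Submodule.Quotient.mk_eq_zero] at h4
      · apply regSeq_of_weaklyRegular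
        have h5 : (y • (⊤ : Submodule S (S ⧸ L))) =
            Submodule.map (Submodule.mkQ L) (Ideal.span {y}) := by
          ext x
          rw [Submodule.mem_smul_pointwise_iff_exists]
          constructor
          · rintro ⟨z, _, rfl⟩
            obtain ⟨f, rfl⟩ := Submodule.Quotient.mk_surjective _ z
            refine ⟨y * f, Ideal.mul_mem_right _ _ (Ideal.mem_span_singleton_self y), ?_⟩
            rw [Submodule.mkQ_apply, ← Submodule.Quotient.mk_smul, smul_eq_mul]
          · rintro ⟨g, hg, rfl⟩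
            obtain ⟨f, rfl⟩ := Ideal.mem_span_singleton'.1 hg
            refine ⟨Submodule.Quotient.mk f, trivial, ?_⟩
            rw [Submodule.mkQ_apply, ← Submodule.Quotient.mk_smul, smul_eq_mul, mul_comm]
        have e1 : QuotSMulTop y (S ⧸ L) ≃ₗ[S]
            ((S ⧸ L) ⧸ Submodule.map (Submodule.mkQ L) (Ideal.span {y})) :=
          Submodule.quotEquivOfEq _ _ h5
        have e2 := Submodule.quotientQuotientEquivQuotientSup L (Ideal.span {y})
        exact ((e1.trans e2).isWeaklyRegular_congr ys).1 h2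

end reg

variable {k : Type*} [Field k]

instance irrPrime (n : ℕ) : (irr k n).IsPrime := irr_isPrime

theorem irr_resid (n : ℕ) (a : MvPolynomial (Fin n) k) :
    ∃ c : k, a - algebraMap k (MvPolynomial (Fin n) k) c ∈ irr k n :=
  ⟨constantCoeff a, by rw [MvPolynomial.algebraMap_eq]; exact sub_C_mem a⟩

instance irrMaximal (n : ℕ) : (irr k n).IsMaximal := by
  rw [Ideal.isMaximal_iff]
  refine ⟨(Ideal.ne_top_iff_one _).1 (irrPrime n).ne_top, ?_⟩
  intro J x hJ hx hxJ
  obtain ⟨c, hc⟩ := irr_resid n x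
  have hc0 : c ≠ 0 := by
    rintro rfl
    rw [map_zero, sub_zero] at hc
    exact hx hc
  have h1 : algebraMap k (MvPolynomial (Fin n) k) c ∈ J := by
    have := sub_mem hxJ (hJ hc)
    simpa using this
  have h2 : algebraMap k (MvPolynomial (Fin n) k) c⁻¹ * algebraMap k _ c ∈ J :=
    J.mul_mem_left _ h1
  rwa [← map_mul, inv_mul_cancel₀ hc0, map_one] at h2

theorem height_irr_le (n : ℕ) : (irr k n).height ≤ (n : ℕ∞) := by
  have h1 := Ideal.height_le_ringKrullDim_of_ne_top (irrPrime (k := k) n).ne_top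
  rw [MvPolynomial.ringKrullDim_of_isNoetherianRing, ringKrullDim_eq_zero_of_field, zero_add,
    Nat.card_fin] at h1
  exact_mod_cast h1

theorem span_span_eq {S : Type*} [CommRing S] [Algebra k S] (s : Set S) :
    Ideal.span ((Submodule.span k s : Submodule k S) : Set S) = Ideal.span s := by
  apply le_antisymm
  · rw [Ideal.span_le]
    intro x hx
    have h1 : Submodule.span k s ≤ (Ideal.span s).restrictScalars k := by
      rw [Submodule.span_le]
      exact Ideal.subset_span
    exact h1 hx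
  · exact Ideal.span_mono Submodule.subset_span

/-- Reduction to the Artinian case, infinite fields. -/
theorem reduction_inf [Infinite k] {n : ℕ} {ι : Type*} [Finite ι]
    (L : ι → Ideal (MvPolynomial (Fin n) k)) (ys : ι → List (MvPolynomial (Fin n) k)) (d : ℕ)
    (hlen : ∀ i, (ys i).length = d) (hys : ∀ i, ∀ y ∈ ys i, y ∈ irr k n)
    (hreg : ∀ i, RegSeq (irr k n) (L i) (ys i)) (i₀ : ι) (hdim : (L i₀).height + d = n)
    (W : Submodule k (MvPolynomial (Fin n) k)) (hW : W ≤ LinearMap.range (lin k n)) :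
    ∃ (h : ℕ) (φ : MvPolynomial (Fin n) k →ₐ[k] MvPolynomial (Fin h) k) (c : ℕ),
      h + d = n ∧ (L i₀).height = h ∧ Function.Surjective φ ∧
      Ideal.map φ (irr k n) = irr k h ∧
      irr k n ^ c ≤ cl (irr k n) (L i₀ ⊔ RingHom.ker φ) ∧
      (∀ i, typ k (irr k n) (L i ⊔ RingHom.ker φ) =
        typ k (irr k n) (L i ⊔ Ideal.ofList (ys i))) ∧
      (∃ zs : List (MvPolynomial (Fin n) k), zs.length = d ∧
        (∀ z ∈ zs, z ∈ LinearMap.range (lin k n)) ∧ RingHom.ker φ = Ideal.ofList zs) ∧
      min n (Module.finrank k W + d) ≤ Module.finrank k ↥(W ⊔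
        (LinearMap.range (lin k n) ⊓ (RingHom.ker φ).restrictScalars k)) := by
  have hfV : Module.finrank k (LinearMap.range (lin k n)) = n := by
    rw [LinearMap.finrank_range_of_inj (lin_injective n), Module.finrank_fin_fun]
  obtain ⟨zs, hzl, hzV, hzr, hzt, hzd⟩ := exists_generic_seq (m := irr k n) (irr_resid n)
    (LinearMap.range (lin k n)) (span_lin n) d L ys (fun b : Bool => cond b W ⊥)
    (by rintro (_ | _); exacts [bot_le, hW]) hlen hys hreg
  have hdn : d ≤ n := by
    have h1 : ((d : ℕ) : ℕ∞) ≤ (n : ℕ) := by rw [← hdim]; exact le_add_self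
    exact_mod_cast h1
  have hUd : Module.finrank k (Submodule.span k {z | z ∈ zs}) = d := by
    apply le_antisymm
    · classical
      have h1 : {z | z ∈ zs} = (zs.toFinset : Set (MvPolynomial (Fin n) k)) := by
        ext z; simp
      rw [h1]
      refine (finrank_span_finset_le_card _).trans ?_
      rw [← hzl]
      exact List.toFinset_card_le zs
    · have h1 := hzd false
      rw [hfV] at h1
      simp only [cond_false, finrank_bot, zero_add] at h1
      have h2 : (⊥ ⊔ Submodule.span k {z | z ∈ zs}) = Submodule.span k {z | z ∈ zs} :=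
        bot_sup_eq _
      rw [min_eq_right hdn] at h1
      exact h1.trans (le_of_eq (LinearEquiv.ofEq _ _ h2).finrank_eq)
  have hhd : (n - d) + d = n := Nat.sub_add_cancel hdn
  obtain ⟨φ, hφs, hφk, hφm⟩ := exists_proj hhd (Submodule.span k {z | z ∈ zs})
    (by rw [Submodule.span_le]; exact hzV) hUd
  have hker : RingHom.ker φ = Ideal.ofList zs := by
    rw [hφk, span_span_eq]
  have hB := (hb_height (m := irr k n) (L i₀)).seq (hzr i₀)
  rw [hzl, hdim] at hB
  obtain ⟨c, hc⟩ := HB.pow_le (L := L i₀ ⊔ Ideal.ofList zs) (fun P hP h1 h2 =>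
    (height_irr_le n).trans (hB P hP h1 h2))
  refine ⟨n - d, φ, c, hhd, ?_, hφs, hφm, ?_, ?_, ⟨zs, hzl, hzV, hker⟩, ?_⟩
  · have h1 : (L i₀).height + d = ((n - d : ℕ) : ℕ∞) + d := by
      rw [hdim]
      exact_mod_cast hhd.symm
    have h2 : ((L i₀).height : ℕ∞) ≠ ⊤ := by
      intro h
      rw [h, top_add] at hdim
      exact ENat.top_ne_natCast n hdim
    obtain ⟨e, he⟩ := ENat.ne_top_iff_exists.1 h2
    rw [← he] at h1 ⊢
    have h3 : e + d = (n - d) + d := by exact_mod_cast h1
    have h4 : e = n - d := by omega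
    rw [h4]
  · rw [hker]
    exact hc
  · intro i
    rw [hker]
    exact hzt i
  · have h1 := hzd true
    rw [hfV] at h1
    simp only [cond_true] at h1
    refine h1.trans ?_
    have hVfin : FiniteDimensional k (LinearMap.range (lin k n)) := inferInstance
    have hle : W ⊔ Submodule.span k {z | z ∈ zs} ≤ W ⊔
        (LinearMap.range (lin k n) ⊓ (RingHom.ker φ).restrictScalars k) := by
      apply sup_le_sup_left
      rw [Submodule.span_le]
      intro z hz
      refine ⟨hzV z hz, ?_⟩
      change z ∈ RingHom.ker φ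
      rw [hker]
      exact Ideal.subset_span hz
    have hfin : FiniteDimensional k ↥(W ⊔
        (LinearMap.range (lin k n) ⊓ (RingHom.ker φ).restrictScalars k)) :=
      Submodule.finiteDimensional_of_le (S₂ := LinearMap.range (lin k n))
        (sup_le hW inf_le_left)
    exact Submodule.finrank_mono hle

/-- **Reduction to the Artinian case** (`k` is infinite if `d > 0`); the case `d = 0` is due to
helper48. -/
theorem reduction {n : ℕ} {ι : Type*} [Finite ι]
    (L : ι → Ideal (MvPolynomial (Fin n) k)) (ys : ι → List (MvPolynomial (Fin n) k)) (d : ℕ)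
    (hk : d = 0 ∨ Infinite k)
    (hlen : ∀ i, (ys i).length = d) (hys : ∀ i, ∀ y ∈ ys i, y ∈ irr k n)
    (hreg : ∀ i, RegSeq (irr k n) (L i) (ys i)) (i₀ : ι) (hdim : (L i₀).height + d = n)
    (W : Submodule k (MvPolynomial (Fin n) k)) (hW : W ≤ LinearMap.range (lin k n)) :
    ∃ (h : ℕ) (φ : MvPolynomial (Fin n) k →ₐ[k] MvPolynomial (Fin h) k) (c : ℕ),
      h + d = n ∧ (L i₀).height = h ∧ Function.Surjective φ ∧
      Ideal.map φ (irr k n) = irr k h ∧
      irr k n ^ c ≤ cl (irr k n) (L i₀ ⊔ RingHom.ker φ) ∧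
      (∀ i, typ k (irr k n) (L i ⊔ RingHom.ker φ) =
        typ k (irr k n) (L i ⊔ Ideal.ofList (ys i))) ∧
      (∃ zs : List (MvPolynomial (Fin n) k), zs.length = d ∧
        (∀ z ∈ zs, z ∈ LinearMap.range (lin k n)) ∧ RingHom.ker φ = Ideal.ofList zs) ∧
      min n (Module.finrank k W + d) ≤ Module.finrank k ↥(W ⊔
        (LinearMap.range (lin k n) ⊓ (RingHom.ker φ).restrictScalars k)) := by
  rcases hk with rfl | hk
  · have hker : RingHom.ker (AlgHom.id k (MvPolynomial (Fin n) k)) = ⊥ := by
      rw [RingHom.ker_eq_bot_iff_eq_zero]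
      intro x hx
      exact hx
    have hht : (L i₀).height = (n : ℕ) := by
      rw [← hdim]; simp
    have hB := hb_height (m := irr k n) (L i₀)
    obtain ⟨c, hc⟩ := HB.pow_le (L := L i₀) (fun P hP h1 h2 =>
      (height_irr_le n).trans (hht.symm.le.trans (hB P hP h1 h2)))
    refine ⟨n, AlgHom.id k _, c, rfl, hht, Function.surjective_id, ?_, ?_, ?_,
      ⟨[], rfl, by simp, ?_⟩, ?_⟩
    · exact Ideal.map_id _
    · rw [hker, sup_bot_eq]
      exact hc
    · intro i
      have h0 : ys i = [] := List.eq_nil_of_length_eq_zero (hlen i)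
      rw [hker, h0, Ideal.ofList_nil]
    · rw [hker, Ideal.ofList_nil]
    · have hfin : FiniteDimensional k ↥(W ⊔ (LinearMap.range (lin k n) ⊓
          (RingHom.ker (AlgHom.id k (MvPolynomial (Fin n) k))).restrictScalars k)) :=
        Submodule.finiteDimensional_of_le (S₂ := LinearMap.range (lin k n))
          (sup_le hW inf_le_left)
      exact (min_le_right _ _).trans (Submodule.finrank_mono le_sup_left)
  · exact reduction_inf L ys d hlen hys hreg i₀ hdim W hW

/-- adding high powers of the maximal ideal -/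
theorem map_pow_irr {n h : ℕ} {φ : MvPolynomial (Fin n) k →ₐ[k] MvPolynomial (Fin h) k}
    (hφm : Ideal.map φ (irr k n) = irr k h) (c : ℕ) :
    Ideal.map φ (irr k n ^ c) = irr k h ^ c := by
  rw [Ideal.map_pow, hφm]

theorem type_one {n h : ℕ} {φ : MvPolynomial (Fin n) k →ₐ[k] MvPolynomial (Fin h) k}
    (hφs : Function.Surjective φ) (hφm : Ideal.map φ (irr k n) = irr k h) {c : ℕ}
    (I : Ideal (MvPolynomial (Fin n) k)) (hc : irr k n ^ c ≤ cl (irr k n) (I ⊔ RingHom.ker φ)) :
    cmType (Ideal.map φ I ⊔ irr k h ^ c) = typ k (irr k n) (I ⊔ RingHom.ker φ) := by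
  have h1 : Ideal.map φ ((I ⊔ irr k n ^ c) ⊔ RingHom.ker φ) = Ideal.map φ I ⊔ irr k h ^ c := by
    rw [Ideal.map_sup, Ideal.map_sup, map_pow_irr hφm]
    have h2 : Ideal.map φ (RingHom.ker φ) = ⊥ := by
      rw [eq_bot_iff, Ideal.map_le_iff_le_comap]
      intro f hf
      exact hf
    rw [h2, sup_bot_eq]
  rw [cmType_eq_typ, ← h1, ← typ_map φ hφs hφm le_sup_right]
  apply typ_congr_cl (irr_resid n)
  apply le_antisymm
  · rw [cl_le_iff]
    exact sup_le (sup_le (le_sup_left.trans (le_cl _)) hc) (le_sup_right.trans (le_cl _))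
  · exact cl_mono (sup_le_sup_right le_sup_left _)

theorem type_mul {n h : ℕ} {φ : MvPolynomial (Fin n) k →ₐ[k] MvPolynomial (Fin h) k}
    (hφs : Function.Surjective φ) (hφm : Ideal.map φ (irr k n) = irr k h) {c : ℕ}
    (I J : Ideal (MvPolynomial (Fin n) k))
    (hc : irr k n ^ c ≤ cl (irr k n) (I * J ⊔ RingHom.ker φ)) :
    cmType ((Ideal.map φ I ⊔ irr k h ^ c) * (Ideal.map φ J ⊔ irr k h ^ c)) =
      typ k (irr k n) (I * J ⊔ RingHom.ker φ) := by
  have h1 : Ideal.map φ ((I ⊔ irr k n ^ c) * (J ⊔ irr k n ^ c) ⊔ RingHom.ker φ) =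
      (Ideal.map φ I ⊔ irr k h ^ c) * (Ideal.map φ J ⊔ irr k h ^ c) := by
    rw [Ideal.map_sup, Ideal.map_mul, Ideal.map_sup, Ideal.map_sup, map_pow_irr hφm]
    have h2 : Ideal.map φ (RingHom.ker φ) = ⊥ := by
      rw [eq_bot_iff, Ideal.map_le_iff_le_comap]
      intro f hf
      exact hf
    rw [h2, sup_bot_eq]
  rw [cmType_eq_typ, ← h1, ← typ_map φ hφs hφm le_sup_right]
  apply typ_congr_cl (irr_resid n)
  apply le_antisymm
  · rw [cl_le_iff]
    refine sup_le ?_ (le_sup_right.trans (le_cl _))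
    rw [Ideal.sup_mul, Ideal.mul_sup, Ideal.mul_sup]
    refine sup_le (sup_le (le_sup_left.trans (le_cl _)) ?_) (sup_le ?_ ?_)
    · exact Ideal.mul_le_right.trans hc
    · exact Ideal.mul_le_left.trans hc
    · exact Ideal.mul_le_left.trans hc
  · exact cl_mono (sup_le_sup_right (Ideal.mul_mono le_sup_left le_sup_left) _)

end Pool.Agent.H90.CMR
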