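import Pool.Agent.H90.CMR.Ht
import Pool.Agent.H6.CMT.Krull

/-! Linear changes of variables; the type under a surjection. -/

namespace Pool.Agent.H90.CMR

open MvPolynomial Pool.Agent.H6.CMT

variable {k : Type*} [Field k]

/-- linear forms -/
noncomputable def lin (k : Type*) [Field k] (n : ℕ) : (Fin n → k) →ₗ[k] MvPolynomial (Fin n) k where
  toFun a := ∑ i, C (a i) * X i
  map_add' a b := by
    rw [← Finset.sum_add_distrib]
    refine Finset.sum_congr rfl fun i _ => ?_
    rw [Pi.add_apply, map_add, add_mul]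
  map_smul' c a := by
    rw [RingHom.id_apply, Finset.smul_sum]
    refine Finset.sum_congr rfl fun i _ => ?_
    rw [Pi.smul_apply, smul_eq_mul, map_mul, MvPolynomial.smul_eq_C_mul, mul_assoc]

theorem lin_apply (n : ℕ) (a : Fin n → k) : lin k n a = ∑ i, C (a i) * X i := rfl

theorem lin_single (n : ℕ) (i : Fin n) : lin k n (Pi.single i 1) = X i := by
  rw [lin_apply, Finset.sum_eq_single i]
  · simp
  · intro j _ hj
    simp [Pi.single_eq_of_ne hj]
  · intro h
    exact absurd (Finset.mem_univ i) h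

theorem lin_mem_irr (n : ℕ) (a : Fin n → k) : lin k n a ∈ irr k n := by
  rw [lin_apply]
  exact sum_mem fun i _ => Ideal.mul_mem_left _ _ (X_mem_irr i)

theorem lin_injective (n : ℕ) : Function.Injective (lin k n) := by
  intro a b hab
  funext j
  have h1 := congrArg (MvPolynomial.coeff (Finsupp.single j 1)) hab
  have h2 : ∀ a : Fin n → k, MvPolynomial.coeff (Finsupp.single j 1) (lin k n a) = a j := by
    intro a
    rw [lin_apply, MvPolynomial.coeff_sum, Finset.sum_eq_single j]
    · rw [MvPolynomial.coeff_C_mul, MvPolynomial.coeff_X, if_pos rfl, mul_one]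
    · intro i _ hij
      rw [MvPolynomial.coeff_C_mul, MvPolynomial.coeff_X]
      rw [if_neg, mul_zero]
      intro h
      exact hij ((Finsupp.single_left_inj one_ne_zero).1 h)
    · intro h
      exact absurd (Finset.mem_univ j) h
  rw [h2, h2] at h1
  exact h1

theorem span_lin (n : ℕ) : Ideal.span ((LinearMap.range (lin k n) : Submodule k _) :
    Set (MvPolynomial (Fin n) k)) = irr k n := by
  apply le_antisymm
  · rw [Ideal.span_le]
    rintro _ ⟨a, rfl⟩
    exact lin_mem_irr n a
  · rw [irr, Ideal.span_le]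
    rintro _ ⟨i, rfl⟩
    exact Ideal.subset_span ⟨Pi.single i 1, lin_single n i⟩

theorem aeval_lin {n h : ℕ} (T : (Fin n → k) →ₗ[k] (Fin h → k)) (a : Fin n → k) :
    aeval (fun i => lin k h (T (Pi.single i 1))) (lin k n a) = lin k h (T a) := by
  rw [lin_apply, map_sum]
  have h1 : ∀ i, aeval (R := k) (fun i => lin k h (T (Pi.single i 1))) (C (a i) * X i) =
      a i • lin k h (T (Pi.single i 1)) := by
    intro i
    rw [map_mul, aeval_X, aeval_C, Algebra.smul_def]
  simp_rw [h1]
  rw [← map_smul_sum_aux]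
where
  map_smul_sum_aux : lin k h (T a) = ∑ i, a i • lin k h (T (Pi.single i 1)) := by
    conv_lhs => rw [← Finset.univ_sum_single a]
    rw [map_sum, map_sum]
    refine Finset.sum_congr rfl fun i _ => ?_
    rw [← map_smul, ← map_smul]
    congr 2
    rw [← Pi.single_smul, smul_eq_mul, mul_one]

/-- **Linear change of variables.** -/
theorem exists_proj {n h d : ℕ} (hn : h + d = n) (U : Submodule k (MvPolynomial (Fin n) k))
    (hU : U ≤ LinearMap.range (lin k n)) (hd : Module.finrank k U = d) :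
    ∃ φ : MvPolynomial (Fin n) k →ₐ[k] MvPolynomial (Fin h) k, Function.Surjective φ ∧
      RingHom.ker φ = Ideal.span (U : Set (MvPolynomial (Fin n) k)) ∧
      Ideal.map φ (irr k n) = irr k h := by
  let U' : Submodule k (Fin n → k) := Submodule.comap (lin k n) U
  have hU' : Module.finrank k U' = d := by
    rw [← hd]
    have e := (Submodule.equivMapOfInjective (lin k n) (lin_injective n) U').finrank_eq
    rw [e]
    have : Submodule.map (lin k n) U' = U := by
      rw [Submodule.map_comap_eq, inf_eq_right]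
      exact hU
    rw [this]
  have hq : Module.finrank k ((Fin n → k) ⧸ U') = Module.finrank k (Fin h → k) := by
    have h1 := Submodule.finrank_quotient_add_finrank U'
    rw [Module.finrank_fin_fun] at h1 ⊢
    omega
  let e : ((Fin n → k) ⧸ U') ≃ₗ[k] (Fin h → k) := LinearEquiv.ofFinrankEq _ _ hq
  let q : (Fin n → k) →ₗ[k] (Fin h → k) := e.toLinearMap ∘ₗ U'.mkQ
  have hqs : Function.Surjective q := e.surjective.comp (Submodule.mkQ_surjective _)
  have hqk : ∀ a, q a = 0 ↔ lin k n a ∈ U := by
    intro a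
    change e (U'.mkQ a) = 0 ↔ _
    rw [e.map_eq_zero_iff, Submodule.mkQ_apply, Submodule.Quotient.mk_eq_zero]
    rfl
  obtain ⟨s, hs⟩ := q.exists_rightInverse_of_surjective (LinearMap.range_eq_top.2 hqs)
  have hs' : ∀ b, q (s b) = b := fun b => by
    have := LinearMap.congr_fun hs b
    simpa using this
  let φ : MvPolynomial (Fin n) k →ₐ[k] MvPolynomial (Fin h) k :=
    aeval (fun i => lin k h (q (Pi.single i 1)))
  let ψ : MvPolynomial (Fin h) k →ₐ[k] MvPolynomial (Fin n) k :=
    aeval (fun i => lin k n (s (Pi.single i 1)))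
  have hφ : ∀ a, φ (lin k n a) = lin k h (q a) := aeval_lin q
  have hψ : ∀ a, ψ (lin k h a) = lin k n (s a) := aeval_lin s
  have hφψ : ∀ f, φ (ψ f) = f := by
    have h1 : φ.comp ψ = AlgHom.id k _ := by
      apply MvPolynomial.algHom_ext
      intro j
      rw [AlgHom.comp_apply, AlgHom.id_apply, ← lin_single, hψ, hφ, hs']
    intro f
    exact AlgHom.congr_fun h1 f
  have hψφ : ∀ f, f - ψ (φ f) ∈ Ideal.span (U : Set (MvPolynomial (Fin n) k)) := by
    have h1 : (Ideal.Quotient.mkₐ k (Ideal.span (U : Set (MvPolynomial (Fin n) k)))).comp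
        (ψ.comp φ) = Ideal.Quotient.mkₐ k (Ideal.span (U : Set (MvPolynomial (Fin n) k))) := by
      apply MvPolynomial.algHom_ext
      intro i
      rw [AlgHom.comp_apply, AlgHom.comp_apply, Ideal.Quotient.mkₐ_eq_mk, eq_comm,
        Ideal.Quotient.eq, ← lin_single, hφ, hψ, ← map_sub]
      apply Ideal.subset_span
      rw [SetLike.mem_coe, ← hqk, map_sub, hs', sub_self]
    intro f
    have h2 := AlgHom.congr_fun h1 f
    rw [AlgHom.comp_apply, AlgHom.comp_apply, Ideal.Quotient.mkₐ_eq_mk, eq_comm,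
      Ideal.Quotient.eq] at h2
    exact h2
  refine ⟨φ, fun f => ⟨ψ f, hφψ f⟩, ?_, ?_⟩
  · apply le_antisymm
    · intro f hf
      have h1 := hψφ f
      rw [RingHom.mem_ker] at hf
      have h2 : φ f = 0 := hf
      rwa [h2, map_zero, sub_zero] at h1
    · rw [Ideal.span_le]
      intro u hu
      obtain ⟨a, rfl⟩ := hU hu
      have h1 : q a = 0 := (hqk a).2 hu
      rw [SetLike.mem_coe, RingHom.mem_ker]
      rw [hφ, h1, map_zero]
  · apply le_antisymm
    · rw [irr, Ideal.map_span, Ideal.span_le]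
      rintro _ ⟨_, ⟨i, rfl⟩, rfl⟩
      rw [SetLike.mem_coe, ← lin_single, hφ]
      exact lin_mem_irr h _
    · rw [irr, Ideal.span_le]
      rintro _ ⟨j, rfl⟩
      rw [SetLike.mem_coe, ← hφψ (X j), ← lin_single, hψ]
      exact Ideal.mem_map_of_mem _ (lin_mem_irr n _)

/-- the type under a surjection -/
theorem typ_map {S S' : Type*} [CommRing S] [CommRing S'] [Algebra k S] [Algebra k S']
    (φ : S →ₐ[k] S') (hφ : Function.Surjective φ) {m L : Ideal S} {m' : Ideal S'}
    (hm : Ideal.map φ m = m') (hL : RingHom.ker φ ≤ L) :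
    typ k m L = typ k m' (Ideal.map φ L) := by
  have hmem : ∀ f, φ f ∈ Ideal.map φ L ↔ f ∈ L := by
    intro f
    have h1 := Ideal.comap_map_of_surjective φ hφ L
    have h2 : f ∈ Ideal.comap φ (Ideal.map φ L) ↔ f ∈ L := by
      rw [h1]
      constructor
      · intro h
        have h3 : L ⊔ Ideal.comap φ ⊥ ≤ L := sup_le le_rfl hL
        exact h3 h
      · intro h
        exact Ideal.mem_sup_left h
    exact h2
  let P : Submodule k S :=
    { carrier := {f | ∀ a ∈ m, a * f ∈ L}
      add_mem' := by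
        intro f g hf hg a ha
        rw [mul_add]
        exact add_mem (hf a ha) (hg a ha)
      zero_mem' := by intro a _; simp
      smul_mem' := by
        intro c f hf a ha
        rw [mul_smul_comm, Algebra.smul_def]
        exact L.mul_mem_left _ (hf a ha) }
  have hP : ∀ f, f ∈ P ↔ ∀ b ∈ m', b * φ f ∈ Ideal.map φ L := by
    intro f
    constructor
    · intro hf b hb
      rw [← hm] at hb
      obtain ⟨a, ha, rfl⟩ := (Ideal.mem_map_iff_of_surjective φ hφ).1 hb
      rw [← map_mul, hmem]
      exact hf a ha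
    · intro h a ha
      rw [← hmem, map_mul]
      exact h _ (hm ▸ Ideal.mem_map_of_mem _ ha)
  let q1 : P →ₗ[k] socm k m L :=
    { toFun := fun f => ⟨Submodule.Quotient.mk f.1, mk_mem_socm.2 f.2⟩
      map_add' := fun _ _ => rfl
      map_smul' := fun _ _ => rfl }
  let q2 : P →ₗ[k] socm k m' (Ideal.map φ L) :=
    { toFun := fun f => ⟨Submodule.Quotient.mk (φ f.1), mk_mem_socm.2 ((hP f.1).1 f.2)⟩
      map_add' := by
        intro f g
        apply Subtype.ext
        change (Submodule.Quotient.mk (φ (f.1 + g.1)) : S' ⧸ Ideal.map φ L) = _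
        rw [map_add]
        rfl
      map_smul' := by
        intro c f
        apply Subtype.ext
        change (Submodule.Quotient.mk (φ (c • f.1)) : S' ⧸ Ideal.map φ L) = _
        rw [map_smul]
        rfl }
  refine finrank_eq_of_maps q1 q2 ?_ ?_ ?_
  · rintro ⟨x, hx⟩
    obtain ⟨f, rfl⟩ := Submodule.Quotient.mk_surjective _ x
    exact ⟨⟨f, mk_mem_socm.1 hx⟩, rfl⟩
  · rintro ⟨x, hx⟩
    obtain ⟨g, rfl⟩ := Submodule.Quotient.mk_surjective _ x
    obtain ⟨f, rfl⟩ := hφ g
    exact ⟨⟨f, (hP f).2 (mk_mem_socm.1 hx)⟩, rfl⟩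
  · rintro ⟨f, hf⟩
    have e1 : q1 ⟨f, hf⟩ = 0 ↔ f ∈ L := by
      rw [← Submodule.coe_eq_zero]
      exact Submodule.Quotient.mk_eq_zero _
    have e2 : q2 ⟨f, hf⟩ = 0 ↔ φ f ∈ Ideal.map φ L := by
      rw [← Submodule.coe_eq_zero]
      exact Submodule.Quotient.mk_eq_zero _
    rw [e1, e2, hmem]

theorem cmType_eq_typ {n : ℕ} (L : Ideal (MvPolynomial (Fin n) k)) :
    cmType L = typ k (irr k n) L := by
  rw [cmType_eq, typ]
  have h1 : soc L = socm k (irr k n) L := by
    ext x
    rw [mem_soc]
    constructor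
    · intro h a ha
      have h2 : irr k n ≤ LinearMap.ker (LinearMap.toSpanSingleton (MvPolynomial (Fin n) k)
          (MvPolynomial (Fin n) k ⧸ L) x) := by
        rw [irr, Ideal.span_le]
        rintro _ ⟨i, rfl⟩
        exact h i
      exact h2 ha
    · intro h i
      exact h _ (X_mem_irr i)
  rw [h1]

end Pool.Agent.H90.CMR
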